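import Pool.Agent.H257R2.WT.Sched

/-!
# Total weighted tardiness: the schedule of a satisfying assignment
-/

namespace Pool.Agent.H257R2.WT

open Pool.Agent.H741R2.LJ Finset

section

variable {m s : ℕ} {cg : ℕ → Bool}

theorem cnt_inv {G : ℕ} {σ : ℕ → ℕ} (hσσ : ∀ g < G, σ (σ g) = g)
    (hN : ∀ g < G, ∀ h, min g (σ g) ≤ h → h ≤ max g (σ g) →
      min g (σ g) ≤ σ h ∧ σ h ≤ max g (σ g)) {j : ℕ} (hj : j < G) : cnt G σ (σ j) = cnt G σ j := by
  rw [cnt_eq, cnt_eq]
  congr 1
  ext g
  rw [mem_filter, mem_filter, mem_range]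
  constructor
  · rintro ⟨h1, h2, h3⟩
    have := hN g h1 (σ j) h2 h3
    rw [hσσ j hj] at this
    exact ⟨h1, this⟩
  · rintro ⟨h1, h2, h3⟩
    exact ⟨h1, hN g h1 j h2 h3⟩

/-- The start times of the jobs which are not fillers. -/
def st0 (m s : ℕ) (τ : ℕ → Bool) (κ : ℕ → ℕ) (x : Ky) : ℕ :=
  if x.1 = 0 then Ps m s (if τ (vr m x.2) = true then x.2 else s1 m x.2) else
  if x.1 = 1 then Ps m s (if τ (vr m x.2) = true then x.2 else s2 m s x.2) +
    (if Ev m x.2 then 10 else 13) else
  if x.1 = 2 then Ps m s (κ x.2) + 17 else x.2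

theorem cheap_of_sat (hm : 0 < m) (h : SatG m s cg) : Cheap m s cg := by
  classical
  obtain ⟨τ, hτ⟩ := h
  have hκ : ∀ r, ∃ g, r < s → 2 * m * r ≤ g ∧ g < 2 * m * r + 2 * m ∧ cg g = true ∧
      (Ev m g ↔ τ (vr m g) = true) := by
    intro r
    by_cases hr : r < s
    · obtain ⟨i, hi, h | h⟩ := hτ r hr
      · refine ⟨2 * m * r + i, fun _ => ⟨by omega, by omega, h.2, ?_⟩⟩
        rw [ev_eq (by omega), vr_eq (by omega), if_pos hi, h.1]
        simp [hi]
      · refine ⟨2 * m * r + (2 * m - 1 - i), fun _ => ⟨by omega, by omega, h.2, ?_⟩⟩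
        rw [ev_eq (by omega), vr_eq (by omega), if_neg (by omega),
          show 2 * m - 1 - (2 * m - 1 - i) = i by omega, h.1]
        simp
        omega
    · exact ⟨0, fun h => absurd h hr⟩
  choose κ hκ using hκ
  set γ : ℕ → ℕ := fun g => if τ (vr m g) = true then g else s1 m g with hγ
  set γ' : ℕ → ℕ := fun g => if τ (vr m g) = true then g else s2 m s g with hγ'
  have hv : ∀ g, vr m (γ g) = vr m g := by
    intro g
    simp only [hγ]
    split_ifs
    · rfl
    · exact vr_s1 hm
  have hv' : ∀ g < 2 * m * s, vr m (γ' g) = vr m g := by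
    intro g hg
    simp only [hγ']
    split_ifs
    · rfl
    · exact vr_s2 hm hg
  have hE : ∀ g, (Ev m g ↔ (Ev m (γ g) ↔ τ (vr m (γ g)) = true)) := by
    intro g
    rw [hv]
    by_cases h : τ (vr m g) = true
    · simp only [hγ, h, if_true, iff_true]
    · rw [Bool.not_eq_true] at h
      simp only [hγ, h, Bool.false_eq_true, if_false, iff_false, ev_s1 hm, not_not]
  have hE' : ∀ g < 2 * m * s, (Ev m g ↔ (Ev m (γ' g) ↔ τ (vr m (γ' g)) = true)) := by
    intro g hg
    rw [hv' g hg]
    by_cases h : τ (vr m g) = true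
    · simp only [hγ', h, if_true, iff_true]
    · rw [Bool.not_eq_true] at h
      simp only [hγ', h, Bool.false_eq_true, if_false, iff_false, ev_s2 hm hg, not_not]
  have hinj : ∀ g h, γ g = γ h → g = h := by
    intro g h he
    have h1 := congrArg (vr m) he
    rw [hv, hv] at h1
    simp only [hγ, h1] at he
    split_ifs at he
    · exact he
    · have := congrArg (s1 m) he
      rwa [s1_s1 hm, s1_s1 hm] at this
  have hinj' : ∀ g < 2 * m * s, ∀ h < 2 * m * s, γ' g = γ' h → g = h := by
    intro g hg h hh he
    have h1 := congrArg (vr m) he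
    rw [hv' g hg, hv' h hh] at h1
    simp only [hγ', h1] at he
    split_ifs at he
    · exact he
    · have := congrArg (s2 m s) he
      rwa [s2_s2 hm hg, s2_s2 hm hh] at this
  have hltG : ∀ g < 2 * m * s, γ g < 2 * m * s := by
    intro g hg
    simp only [hγ]
    split_ifs
    · exact hg
    · exact s1_lt hm hg
  have hltG' : ∀ g < 2 * m * s, γ' g < 2 * m * s := by
    intro g hg
    simp only [hγ']
    split_ifs
    · exact hg
    · exact s2_lt hm hg
  have hw : ∀ g, min g (s1 m g) ≤ γ g := by
    intro g
    simp only [hγ]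
    split_ifs <;> omega
  have hw' : ∀ g, min g (s2 m s g) ≤ γ' g := by
    intro g
    simp only [hγ']
    split_ifs <;> omega
  have hκG : ∀ r < s, κ r < 2 * m * s := by
    intro r hr
    have h1 := hκ r hr
    have := Nat.mul_le_mul_left (2 * m) (show r + 1 ≤ s by omega)
    rw [Nat.mul_add, Nat.mul_one] at this
    omega
  set S0 := st0 m s τ κ with hS0
  have t0 : ∀ g, S0 (0, g) = Ps m s (γ g) := fun g => by simp [hS0, st0, hγ]
  have t1 : ∀ g, S0 (1, g) = Ps m s (γ' g) + (if Ev m g then 10 else 13) := fun g => by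
    simp [hS0, st0, hγ']
  have t2 : ∀ r, S0 (2, r) = Ps m s (κ r) + 17 := fun g => by simp [hS0, st0]
  have t4 : ∀ r, S0 (4, r) = r := fun g => by simp [hS0, st0]
  have hPl : ∀ g h, g < h → Ps m s g + 20 ≤ Ps m s h := fun g h => Ps_lt hm
  have hmono : ∀ g h, g ≤ h → Ps m s g ≤ Ps m s h := fun g h hgh => (Ps_mono hm).monotone hgh
  -- the flexible jobs avoid the rigid cells
  have hrg : ∀ g o, o < 18 → rg m s cg (Ps m s g + o) = false := fun g o ho => by
    rw [rg_Ps hm (by omega)]
    omega
  have hav : ∀ x ∈ keysX m s cg, x.1 ≤ 2 → ∀ c, S0 x ≤ c → c < S0 x + len m x →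
      rg m s cg c = false := by
    rintro ⟨a, g⟩ hx hx2 c h1 h2
    rw [mem_keysX] at hx
    rcases hx with ⟨h3, h4⟩ | ⟨h3, h4⟩ | ⟨h3, h4⟩ | ⟨h3, h4⟩ <;> simp only at h3 h4 hx2 <;> subst h3
    · rw [t0] at h1 h2
      rw [len0] at h2
      have h5 : c = Ps m s (γ g) + (c - Ps m s (γ g)) := by omega
      rw [h5]
      apply hrg
      split_ifs at h2 <;> omega
    · rw [t1] at h1 h2
      rw [len1] at h2
      have h5 : c = Ps m s (γ' g) + (c - Ps m s (γ' g)) := by
        split_ifs at h1 <;> omega
      rw [h5]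
      apply hrg
      split_ifs at h2 <;> omega
    · rw [t2] at h1 h2
      rw [len2] at h2
      have h5 : c = Ps m s (κ g) + (c - Ps m s (κ g)) := by omega
      rw [h5, rg_Ps hm (by omega)]
      refine ⟨by omega, fun _ => (hκ g h4).2.2.1⟩
    · omega
  set K1 : Finset Ky := (keysX m s cg).toFinset.filter (fun x => x.1 ≤ 2) with hK1
  have memK1 : ∀ x, x ∈ K1 ↔ x ∈ keysX m s cg ∧ x.1 ≤ 2 := by
    intro x
    rw [hK1, mem_filter, List.mem_toFinset]
  set Z : Finset Ky := (keysZ m s cg).toFinset with hZ
  -- the jobs which are not fillers are disjoint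
  have hdis0 : ∀ x ∈ K1 ∪ Z, ∀ y ∈ K1 ∪ Z, x ≠ y → S0 x + len m x ≤ S0 y ∨
      S0 y + len m y ≤ S0 x := by
    have main : ∀ x ∈ K1 ∪ Z, ∀ y ∈ K1 ∪ Z, x ≠ y → x.1 ≤ y.1 → S0 x + len m x ≤ S0 y ∨
      S0 y + len m y ≤ S0 x := by
      intro x hx y hy hne hab
      rw [mem_union, memK1, hZ, List.mem_toFinset] at hx hy
      rcases hx with hx | hx
      · rcases hy with hy | hy
        · obtain ⟨a, g⟩ := x
          obtain ⟨b, h⟩ := y
          rw [mem_keysX] at hx hy
          obtain ⟨hx, hx2⟩ := hx
          obtain ⟨hy, hy2⟩ := hy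
          rcases hx with ⟨h1, h2⟩ | ⟨h1, h2⟩ | ⟨h1, h2⟩ | ⟨h1, h2⟩ <;>
            simp only at h1 h2 hx2 <;> subst h1 <;>
            rcases hy with ⟨h4, h5⟩ | ⟨h4, h5⟩ | ⟨h4, h5⟩ | ⟨h4, h5⟩ <;>
            simp only at h4 h5 hy2 <;> subst h4 <;> simp only at hab <;>
            first | (exfalso; omega) | skip
          · -- 0 0
            rw [t0, t0, len0, len0]
            have h7 : γ g ≠ γ h := fun e => hne (by rw [hinj g h e])
            rcases Nat.lt_or_gt_of_ne h7 with h8 | h8
            · have := hPl _ _ h8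
              split_ifs <;> omega
            · have := hPl _ _ h8
              split_ifs <;> omega
          · -- 0 1
            rw [t0, t1, len0, len1]
            by_cases e : γ g = γ' h
            · have h8 : Ev m g ↔ Ev m h := by rw [hE g, hE' h h5, e]
              rw [e]
              by_cases h9 : Ev m g
              · rw [if_pos h9, if_pos (h8.1 h9)]
                omega
              · rw [if_neg h9, if_neg (fun h => h9 (h8.2 h))]
                omega
            · rcases Nat.lt_or_gt_of_ne e with h8 | h8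
              · have := hPl _ _ h8
                split_ifs <;> omega
              · have := hPl _ _ h8
                split_ifs <;> omega
          · -- 0 2
            rw [t0, t2, len0, len2]
            rcases Nat.lt_trichotomy (γ g) (κ h) with h8 | h8 | h8
            · have := hPl _ _ h8
              split_ifs <;> omega
            · rw [h8]
              split_ifs <;> omega
            · have := hPl _ _ h8
              split_ifs <;> omega
          · -- 1 1
            rw [t1, t1, len1, len1]
            have h7 : γ' g ≠ γ' h := fun e => hne (by rw [hinj' g h2 h h5 e])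
            rcases Nat.lt_or_gt_of_ne h7 with h8 | h8
            · have := hPl _ _ h8
              split_ifs <;> omega
            · have := hPl _ _ h8
              split_ifs <;> omega
          · -- 1 2
            rw [t1, t2, len1, len2]
            by_cases e : γ' g = κ h
            · have h8 : Ev m g := by
                rw [hE' g h2, e]
                exact (hκ h h5).2.2.2
              rw [if_pos h8, if_pos h8, e]
              omega
            · rcases Nat.lt_or_gt_of_ne e with h8 | h8
              · have := hPl _ _ h8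
                split_ifs <;> omega
              · have := hPl _ _ h8
                split_ifs <;> omega
          · -- 2 2
            rw [t2, t2, len2, len2]
            have h7 : κ g ≠ κ h := by
              intro e
              have h8 := hκ g h2
              have h9 := hκ h h5
              apply hne
              have : 2 * m * g + (κ g - 2 * m * g) = 2 * m * h + (κ h - 2 * m * h) := by omega
              rw [(same_block (by omega) (by omega) this).1]
            rcases Nat.lt_or_gt_of_ne h7 with h8 | h8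
            · have := hPl _ _ h8
              omega
            · have := hPl _ _ h8
              omega
        · -- flexible and rigid
          obtain ⟨b, c⟩ := y
          rw [mem_keysZ] at hy
          obtain ⟨h1, h2, h3⟩ := hy
          simp only at h1 h2 h3
          subst h1
          rw [t4, len4']
          by_contra hcon
          have := hav x hx.1 hx.2 c (by omega) (by omega)
          rw [h3] at this
          exact absurd this (by decide)
      · rw [mem_keysZ] at hx
        rcases hy with hy | hy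
        · omega
        · rw [mem_keysZ] at hy
          obtain ⟨a, g⟩ := x
          obtain ⟨b, h⟩ := y
          obtain ⟨h1, _, _⟩ := hx
          obtain ⟨h2, _, _⟩ := hy
          simp only at h1 h2
          subst h1
          subst h2
          rw [t4, t4, len4', len4']
          have h7 : g ≠ h := fun e => hne (by rw [e])
          omega
    intro x hx y hy hne
    rcases le_total x.1 y.1 with h | h
    · exact main x hx y hy hne h
    · exact (main y hy x hx (Ne.symm hne) h).symm
  have hle0 : ∀ x ∈ K1 ∪ Z, S0 x + len m x ≤ Hz m s := by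
    intro x hx
    rw [mem_union, memK1, hZ, List.mem_toFinset] at hx
    obtain ⟨a, g⟩ := x
    rcases hx with ⟨hx, hx2⟩ | hx
    · rw [mem_keysX] at hx
      rcases hx with ⟨h1, h2⟩ | ⟨h1, h2⟩ | ⟨h1, h2⟩ | ⟨h1, h2⟩ <;> simp only at h1 h2 hx2 <;>
        subst h1
      · rw [t0, len0]
        have := Ps_Hz (s := s) hm (hltG g h2)
        split_ifs <;> omega
      · rw [t1, len1]
        have := Ps_Hz (s := s) hm (hltG' g h2)
        split_ifs <;> omega
      · rw [t2, len2]
        have := Ps_Hz (s := s) hm (hκG g h2)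
        omega
      · omega
    · rw [mem_keysZ] at hx
      obtain ⟨h1, h2, _⟩ := hx
      simp only at h1 h2
      subst h1
      rw [t4, len4']
      omega
  have hK1Z : Disjoint K1 Z := by
    rw [disjoint_left]
    intro x hx hz
    rw [memK1] at hx
    rw [hZ, List.mem_toFinset, mem_keysZ] at hz
    omega
  -- the free cells
  set F : Finset ℕ := range (Hz m s) \ cells (K1 ∪ Z) (len m) S0 with hF
  have hsub : cells (K1 ∪ Z) (len m) S0 ⊆ range (Hz m s) := by
    intro c hc
    rw [cells, mem_biUnion] at hc
    obtain ⟨x, hx, hc⟩ := hc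
    rw [mem_Ico] at hc
    have := hle0 x hx
    rw [mem_range]
    omega
  have hsumK1 : ∑ x ∈ K1, len m x = lsum (2 * m * s) (fun g => len m (0, g)) +
      lsum (2 * m * s) (fun g => len m (1, g)) + 2 * s := by
    have h1 : ∑ x ∈ K1, len m x =
        ∑ x ∈ (keysX m s cg).toFinset, if x.1 ≤ 2 then len m x else 0 := by
      rw [hK1, sum_filter]
    rw [h1, sum_keysX (fun x => if x.1 ≤ 2 then len m x else 0), lsum_eq, lsum_eq]
    have h2 : ∀ g, len m (2, g) = 2 := fun g => len2 g
    simp only [Nat.zero_le, if_true, h2, show (1 : ℕ) ≤ 2 by norm_num, le_refl,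
      show ¬ (3 : ℕ) ≤ 2 by norm_num, if_false, sum_const, card_range, smul_eq_mul, mul_zero,
      add_zero]
    ring
  have hcardcells : (cells (K1 ∪ Z) (len m) S0).card = lsum (2 * m * s) (fun g => len m (0, g)) +
      lsum (2 * m * s) (fun g => len m (1, g)) + 2 * s +
      ((range (Hz m s)).filter (fun c => rg m s cg c = true)).card := by
    rw [card_cells hdis0, sum_union hK1Z, hsumK1, hZ, sum_len_Z]
  have hcF : F.card = nf m s cg := by
    have h1 : F.card = (range (Hz m s)).card - (cells (K1 ∪ Z) (len m) S0).card :=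
      card_sdiff_of_subset hsub
    rw [h1, card_range, hcardcells]
    have h2 := card_split (m := m) (s := s) (cg := cg)
    have h3 := card_free (m := m) (s := s) (cg := cg)
    unfold nf
    omega
  set e : ℕ → ℕ := fun i => if h : i < nf m s cg then F.orderEmbOfFin hcF ⟨i, h⟩ else 0 with he
  have heF : ∀ i < nf m s cg, e i ∈ F := by
    intro i hi
    simp only [he, dif_pos hi]
    exact F.orderEmbOfFin_mem hcF _
  have heinj : ∀ i < nf m s cg, ∀ j < nf m s cg, e i = e j → i = j := by
    intro i hi j hj hij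
    simp only [he, dif_pos hi, dif_pos hj] at hij
    have := (F.orderEmbOfFin hcF).injective hij
    exact congrArg Fin.val this
  set S : Ky → ℕ := fun x => if x.1 = 3 then e x.2 else S0 x with hS
  have S3 : ∀ i, S (3, i) = e i := fun i => by simp [hS]
  have Sne : ∀ x : Ky, x.1 ≠ 3 → S x = S0 x := fun x hx => by
    simp only [hS]
    rw [if_neg hx]
  have hXZ : ∀ x, x ∈ (keysX m s cg).toFinset ∪ Z → (x.1 = 3 ∧ x.2 < nf m s cg) ∨
      (x.1 ≠ 3 ∧ x ∈ K1 ∪ Z) := by
    intro x hx
    rw [mem_union, List.mem_toFinset] at hx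
    by_cases h3 : x.1 = 3
    · left
      rcases hx with hx | hx
      · rw [mem_keysX] at hx
        exact ⟨h3, by omega⟩
      · rw [hZ, List.mem_toFinset, mem_keysZ] at hx
        omega
    · right
      refine ⟨h3, ?_⟩
      rw [mem_union, memK1]
      rcases hx with hx | hx
      · left
        refine ⟨hx, ?_⟩
        rw [mem_keysX] at hx
        omega
      · exact Or.inr hx
  have hdis : ∀ x ∈ (keysX m s cg).toFinset ∪ Z, ∀ y ∈ (keysX m s cg).toFinset ∪ Z, x ≠ y →
      S x + len m x ≤ S y ∨ S y + len m y ≤ S x := by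
    have key : ∀ i < nf m s cg, ∀ y ∈ K1 ∪ Z, e i + 1 ≤ S0 y ∨ S0 y + len m y ≤ e i := by
      intro i hi y hy
      by_contra hcon
      have h1 := heF i hi
      rw [hF, mem_sdiff] at h1
      apply h1.2
      rw [cells, mem_biUnion]
      exact ⟨y, hy, by rw [mem_Ico]; omega⟩
    intro x hx y hy hne
    rcases hXZ x hx with ⟨hx3, hxn⟩ | ⟨hx3, hx'⟩
    · obtain ⟨a, i⟩ := x
      simp only at hx3 hxn
      subst hx3
      rw [S3, len3]
      rcases hXZ y hy with ⟨hy3, hyn⟩ | ⟨hy3, hy'⟩
      · obtain ⟨b, j⟩ := y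
        simp only at hy3 hyn
        subst hy3
        rw [S3, len3]
        have h1 : e i ≠ e j := fun h => hne (by rw [heinj i hxn j hyn h])
        omega
      · rw [Sne y hy3]
        exact key i hxn y hy'
    · rw [Sne x hx3]
      rcases hXZ y hy with ⟨hy3, hyn⟩ | ⟨hy3, hy'⟩
      · obtain ⟨b, j⟩ := y
        simp only at hy3 hyn
        subst hy3
        rw [S3, len3]
        exact (key j hyn x hx').symm
      · rw [Sne y hy3]
        exact hdis0 x hx' y hy' hne
  have hle : ∀ x ∈ (keysX m s cg).toFinset ∪ Z, S x + len m x ≤ Hz m s := by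
    intro x hx
    rcases hXZ x hx with ⟨hx3, hxn⟩ | ⟨hx3, hx'⟩
    · obtain ⟨a, i⟩ := x
      simp only at hx3 hxn
      subst hx3
      rw [S3, len3]
      have h1 := heF i hxn
      rw [hF, mem_sdiff, mem_range] at h1
      omega
    · rw [Sne x hx3]
      exact hle0 x hx'
  have hsumH : ∑ x ∈ (keysX m s cg).toFinset ∪ Z, len m x = Hz m s := by
    rw [sum_union disjXZ, sum_len_X, sum_len_Z]
    have h1 := card_le_card hsub
    rw [card_range, hcardcells] at h1
    have h2 := card_split (m := m) (s := s) (cg := cg)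
    have h3 := card_free (m := m) (s := s) (cg := cg)
    unfold nf
    omega
  have hdue : ∀ x ∈ (keysX m s cg).toFinset, due' m s x ≤ S x + len m x := by
    intro x hx
    rw [List.mem_toFinset, mem_keysX] at hx
    obtain ⟨a, g⟩ := x
    rcases hx with ⟨h1, h2⟩ | ⟨h1, h2⟩ | ⟨h1, h2⟩ | ⟨h1, h2⟩ <;> simp only at h1 h2 <;> subst h1
    · rw [Sne _ (by norm_num), t0]
      have e1 : due' m s (0, g) = Ps m s (min g (s1 m g)) + len m (0, g) := by simp [due']
      rw [e1]
      have := hmono _ _ (hw g)
      omega
    · rw [Sne _ (by norm_num), t1]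
      have e1 : due' m s (1, g) = Ps m s (min g (s2 m s g)) + len m (1, g) := by simp [due']
      rw [e1]
      have := hmono _ _ (hw' g)
      omega
    · rw [Sne _ (by norm_num), t2, len2]
      have e1 : due' m s (2, g) = Lm m s * g + 2 := by simp [due']
      rw [e1]
      have h3 := hmono _ _ (hκ g h2).1
      have h4 := Ps_eq (s := s) (m := m) (b := g) (a := 0) (by omega)
      rw [Nat.add_zero, Nat.mul_zero, Nat.add_zero] at h4
      omega
    · have e1 : due' m s (3, g) = 0 := by simp [due']
      rw [e1]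
      omega
  have hpZ : ∀ x ∈ Z, len m x = 1 := by
    intro x hx
    rw [hZ, List.mem_toFinset, mem_keysZ] at hx
    obtain ⟨a, c⟩ := x
    obtain ⟨h1, _, _⟩ := hx
    simp only at h1
    subst h1
    exact len4' c
  have hconv := weights_conv (X := (keysX m s cg).toFinset) (Z := Z) (p := len m) (ω := om m s)
    (d := due' m s) (S := S) (pos := fun x => x.2) (W := WW m s) (F0 := F0 m s cg)
    (H := Hz m s) (Big := AA m s cg + 1) disjXZ hpZ hdis hsumH hF'
    (fun x hx => by
      rw [hZ, List.mem_toFinset, mem_keysZ] at hx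
      rw [Sne x (by omega)]
      obtain ⟨a, c⟩ := x
      obtain ⟨h1, _, _⟩ := hx
      simp only at h1
      subst h1
      exact t4 c)
    hdue hle
  refine ⟨S, fun x hx y hy => hdis x (mem_XZ.2 hx) y (mem_XZ.2 hy), ?_⟩
  rw [cost_eq, ← BB_eq, hconv, sum_tri, sum_om (fun x => S x + len m x)]
  -- the levels
  set G := 2 * m * s with hG
  have hA : ∑ g ∈ range G, cnt G (s1 m) g * (S (0, g) + len m (0, g)) = OA m s := by
    unfold OA
    rw [lsum_eq]
    have h1 : ∀ g ∈ range G, cnt G (s1 m) g * (S (0, g) + len m (0, g)) =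
        cnt G (s1 m) (γ g) * Ps m s (γ g) + cnt G (s1 m) g * len m (0, g) := by
      intro g hg
      rw [Sne _ (by norm_num), t0, Nat.mul_add]
      congr 2
      simp only [hγ]
      split_ifs
      · rfl
      · exact (cnt_inv (fun g _ => s1_s1 hm) (fun g _ h h1 h2 => s1_nested hm h1 h2)
          (mem_range.1 hg)).symm
    rw [sum_congr rfl h1, sum_add_distrib,
      sum_perm hltG (fun g _ h _ => hinj g h) (fun h => cnt G (s1 m) h * Ps m s h),
      ← sum_add_distrib]
    refine sum_congr rfl fun g _ => ?_
    rw [Nat.mul_add]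
  have hB : ∑ g ∈ range G, cnt G (s2 m s) g * (S (1, g) + len m (1, g)) = OB m s := by
    unfold OB
    rw [lsum_eq]
    have h1 : ∀ g ∈ range G, cnt G (s2 m s) g * (S (1, g) + len m (1, g)) =
        cnt G (s2 m s) (γ' g) * Ps m s (γ' g) + cnt G (s2 m s) g * (if Ev m g then 17 else 18) := by
      intro g hg
      rw [Sne _ (by norm_num), t1, len1]
      have h2 : Ps m s (γ' g) + (if Ev m g then 10 else 13) + (if Ev m g then 7 else 5) =
          Ps m s (γ' g) + (if Ev m g then 17 else 18) := by split_ifs <;> rfl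
      rw [h2, Nat.mul_add]
      congr 2
      simp only [hγ']
      split_ifs
      · rfl
      · exact (cnt_inv (fun g hg => s2_s2 hm hg) (fun g hg h h1 h2 => s2_nested hm hg h1 h2)
          (mem_range.1 hg)).symm
    rw [sum_congr rfl h1, sum_add_distrib,
      sum_perm hltG' hinj' (fun h => cnt G (s2 m s) h * Ps m s h), ← sum_add_distrib]
    refine sum_congr rfl fun g _ => ?_
    rw [Nat.mul_add]
  have hC : ∑ g ∈ range s, (S (2, g) + len m (2, g)) ≤ OC m s := by
    unfold OC
    rw [lsum_eq]
    refine sum_le_sum fun r hr => ?_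
    rw [mem_range] at hr
    rw [Sne _ (by norm_num), t2, len2]
    have h1 := hκ r hr
    have h2 : κ r = 2 * m * r + (κ r - 2 * m * r) := by omega
    rw [h2, Ps_eq (by omega)]
    omega
  rw [hA, hB]
  unfold AA Om
  omega

theorem cheap_iff (hm : 0 < m) : Cheap m s cg ↔ SatG m s cg := by
  rcases Nat.eq_zero_or_pos s with rfl | hs
  · exact ⟨fun _ => ⟨fun _ => true, fun r hr => absurd hr (Nat.not_lt_zero r)⟩, cheap_of_sat hm⟩
  · exact ⟨sat_of_cheap hm hs, cheap_of_sat hm⟩

end

end Pool.Agent.H257R2.WT
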