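import Mathlib

/-!
# Total weighted tardiness: sums over disjoint intervals
-/

namespace Pool.Agent.H257R2.WT

open Finset

/-- A set of at least `k` numbers, all at least `r`, compared with the first `k` such numbers. -/
theorem sum_ge {f : ℕ → ℕ} (hf : StrictMono f) {r k : ℕ} {M : Finset ℕ} (hM : ∀ x ∈ M, r ≤ x)
    (hk : k ≤ M.card) :
    ∑ x ∈ Ico r (r + k), f x + (Ico r (r + k) \ M).card ≤ ∑ x ∈ M, f x := by
  set I := Ico r (r + k) with hI
  have hIc : I.card = k := by rw [hI, Nat.card_Ico]; omega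
  have h1 : ∑ x ∈ I, f x = ∑ x ∈ I \ M, f x + ∑ x ∈ I ∩ M, f x := by
    rw [← sum_sdiff (s₁ := I ∩ M) inter_subset_left, sdiff_inter_self_left]
  have h2 : ∑ x ∈ M, f x = ∑ x ∈ M \ I, f x + ∑ x ∈ I ∩ M, f x := by
    rw [← sum_sdiff (s₁ := I ∩ M) inter_subset_right, sdiff_inter_self_right]
  have h3 : (I \ M).card ≤ (M \ I).card := by
    have e1 : (I \ M).card + (I ∩ M).card = I.card := card_sdiff_add_card_inter I M
    have e2 : (M \ I).card + (M ∩ I).card = M.card := card_sdiff_add_card_inter M I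
    rw [inter_comm M I] at e2
    omega
  have h4 : (M \ I).card * f (r + k) ≤ ∑ x ∈ M \ I, f x := by
    rw [← smul_eq_mul]
    apply card_nsmul_le_sum
    intro x hx
    rw [mem_sdiff, hI, mem_Ico] at hx
    have := hM x hx.1
    exact hf.monotone (by omega)
  have h5 : ∑ x ∈ I \ M, f x + (I \ M).card ≤ (I \ M).card * f (r + k) := by
    have : ∑ x ∈ I \ M, (f x + 1) ≤ (I \ M).card • f (r + k) := by
      apply sum_le_card_nsmul
      intro x hx
      rw [mem_sdiff, hI, mem_Ico] at hx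
      exact hf hx.1.2
    rw [sum_add_distrib, sum_const, smul_eq_mul, smul_eq_mul, mul_one] at this
    exact this
  have h6 := Nat.mul_le_mul_right (f (r + k)) h3
  omega

/-- The number of windows which contain `j`. -/
def cnt (G : ℕ) (σ : ℕ → ℕ) (j : ℕ) : ℕ :=
  ((List.range G).filter (fun g => decide (min g (σ g) ≤ j ∧ j ≤ max g (σ g)))).length

theorem cnt_eq (G : ℕ) (σ : ℕ → ℕ) (j : ℕ) :
    cnt G σ j = ((range G).filter (fun g => min g (σ g) ≤ j ∧ j ≤ max g (σ g))).card := by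
  unfold cnt
  rw [← List.toFinset_card_of_nodup (List.nodup_range.filter _), List.toFinset_filter,
    List.toFinset_range]
  congr 1
  ext x
  simp

theorem cnt_pos {G : ℕ} {σ : ℕ → ℕ} {j : ℕ} (hj : j < G) : 1 ≤ cnt G σ j := by
  rw [cnt_eq, Nat.one_le_iff_ne_zero, ← Nat.pos_iff_ne_zero, card_pos]
  refine ⟨j, ?_⟩
  rw [mem_filter, mem_range]
  exact ⟨hj, min_le_left _ _, le_max_left _ _⟩

theorem cnt_sum {G : ℕ} {σ F : ℕ → ℕ} (hσ : ∀ g < G, σ g < G) :
    ∑ j ∈ range G, cnt G σ j * F j =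
      ∑ g ∈ range G, ∑ j ∈ Ico (min g (σ g)) (min g (σ g) + (max g (σ g) + 1 - min g (σ g))), F j := by
  have h1 : ∀ j ∈ range G, cnt G σ j * F j =
      ∑ g ∈ range G, if min g (σ g) ≤ j ∧ j ≤ max g (σ g) then F j else 0 := by
    intro j _
    rw [cnt_eq, ← sum_filter, sum_const, smul_eq_mul]
  rw [sum_congr rfl h1, sum_comm]
  refine sum_congr rfl fun g hg => ?_
  rw [mem_range] at hg
  rw [← sum_filter]
  refine sum_congr ?_ fun _ _ => rfl
  ext j
  have := hσ g hg
  rw [mem_filter, mem_range, mem_Ico]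
  omega

/-- **The levels.**  The jobs `j < G` are assigned to gaps `γ j`, each not before its window; then
the weighted sum of the positions is at least the value for the identity, and if it is equal then
no job is after its window. -/
theorem level {G : ℕ} {σ γ f : ℕ → ℕ} (hf : StrictMono f) (hσ : ∀ g < G, σ g < G)
    (hN : ∀ g < G, ∀ h, min g (σ g) ≤ h → h ≤ max g (σ g) →
      min g (σ g) ≤ σ h ∧ σ h ≤ max g (σ g))
    (hinj : ∀ g < G, ∀ h < G, γ g = γ h → g = h) (hγ : ∀ g < G, min g (σ g) ≤ γ g) :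
    ∑ j ∈ range G, cnt G σ j * f j ≤ ∑ j ∈ range G, cnt G σ j * f (γ j) ∧
    (∑ j ∈ range G, cnt G σ j * f (γ j) ≤ ∑ j ∈ range G, cnt G σ j * f j →
      ∀ g < G, γ g ≤ max g (σ g)) := by
  rw [cnt_sum hσ, cnt_sum (F := fun j => f (γ j)) hσ]
  have key : ∀ g ∈ range G,
      ∑ j ∈ Ico (min g (σ g)) (min g (σ g) + (max g (σ g) + 1 - min g (σ g))), f j +
        (Ico (min g (σ g)) (min g (σ g) + (max g (σ g) + 1 - min g (σ g))) \
          (Ico (min g (σ g)) (min g (σ g) + (max g (σ g) + 1 - min g (σ g)))).image γ).card ≤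
      ∑ j ∈ Ico (min g (σ g)) (min g (σ g) + (max g (σ g) + 1 - min g (σ g))), f (γ j) := by
    intro g hg
    rw [mem_range] at hg
    have hσg := hσ g hg
    set I := Ico (min g (σ g)) (min g (σ g) + (max g (σ g) + 1 - min g (σ g))) with hI
    have hmem : ∀ j ∈ I, j < G ∧ min g (σ g) ≤ j ∧ j ≤ max g (σ g) := by
      intro j hj
      rw [hI, mem_Ico] at hj
      omega
    have hinjI : Set.InjOn γ I := by
      intro a ha b hb hab
      exact hinj a (hmem a ha).1 b (hmem b hb).1 hab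
    rw [← sum_image (s := I) (g := γ) (f := f) hinjI]
    apply sum_ge hf
    · intro x hx
      rw [mem_image] at hx
      obtain ⟨j, hj, rfl⟩ := hx
      have h1 := hmem j hj
      have h2 := hN g hg j h1.2.1 h1.2.2
      have h3 := hγ j h1.1
      omega
    · rw [card_image_of_injOn hinjI, hI, Nat.card_Ico]
      omega
  constructor
  · exact sum_le_sum fun g hg => (Nat.le_add_right _ _).trans (key g hg)
  · intro hle g hg
    have h1 := sum_le_sum key
    rw [sum_add_distrib] at h1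
    have h2 : ∑ g ∈ range G, (Ico (min g (σ g)) (min g (σ g) + (max g (σ g) + 1 - min g (σ g))) \
          (Ico (min g (σ g)) (min g (σ g) + (max g (σ g) + 1 - min g (σ g)))).image γ).card = 0 := by
      omega
    rw [sum_eq_zero_iff] at h2
    have h3 := h2 g (mem_range.2 hg)
    rw [card_eq_zero, sdiff_eq_empty_iff_subset] at h3
    set I := Ico (min g (σ g)) (min g (σ g) + (max g (σ g) + 1 - min g (σ g))) with hI
    have h4 : I = I.image γ := eq_of_subset_of_card_le h3 card_image_le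
    have h5 : γ g ∈ I := by
      rw [h4]
      apply mem_image_of_mem
      rw [hI, mem_Ico]
      omega
    rw [hI, mem_Ico] at h5
    omega

/-! ## Disjoint intervals -/

/-- `1 + 2 + ⋯ + p`. -/
def tri (p : ℕ) : ℕ := p * (p + 1) / 2

theorem mul_end (S p : ℕ) : p * (S + p) = ∑ t ∈ Ico S (S + p), t + tri p := by
  have h : ∑ t ∈ Ico S (S + p), t = ∑ i ∈ range p, (S + i) := by
    rw [sum_Ico_eq_sum_range]
    congr 1
    congr 1
    omega
  rw [h, sum_add_distrib, sum_const, card_range, smul_eq_mul]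
  have h1 : (∑ i ∈ range p, i) + tri p = p * p := by
    have hs := sum_range_id_mul_two p
    unfold tri
    rcases p with _ | p
    · rfl
    · have h3 : 2 ∣ (p + 1) * (p + 1 + 1) := (Nat.even_mul_succ_self (p + 1)).two_dvd
      have h4 : (p + 1) * (p + 1 - 1) = (p + 1) * p := by simp
      rw [h4] at hs
      have h5 : (p + 1) * p + (p + 1) * (p + 1 + 1) = 2 * ((p + 1) * (p + 1)) := by ring
      omega
  have h2 : p * (S + p) = p * S + p * p := by ring
  rw [h2]
  omega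

section

variable {α : Type} {K : Finset α} {p S : α → ℕ}

/-- The cells which are covered. -/
def cells (K : Finset α) (p S : α → ℕ) : Finset ℕ := K.biUnion fun x => Ico (S x) (S x + p x)

theorem pd (hdis : ∀ x ∈ K, ∀ y ∈ K, x ≠ y → S x + p x ≤ S y ∨ S y + p y ≤ S x) :
    Set.PairwiseDisjoint (K : Set α) (fun x => Ico (S x) (S x + p x)) := by
  intro x hx y hy hxy
  rw [Function.onFun, disjoint_left]
  intro t ht ht'
  rw [mem_Ico] at ht ht'
  have := hdis x hx y hy hxy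
  omega

theorem card_cells (hdis : ∀ x ∈ K, ∀ y ∈ K, x ≠ y → S x + p x ≤ S y ∨ S y + p y ≤ S x) :
    (cells K p S).card = ∑ x ∈ K, p x := by
  unfold cells
  rw [card_biUnion (pd hdis)]
  refine sum_congr rfl fun x _ => ?_
  rw [Nat.card_Ico]
  omega

theorem sum_cells (hdis : ∀ x ∈ K, ∀ y ∈ K, x ≠ y → S x + p x ≤ S y ∨ S y + p y ≤ S x) :
    ∑ t ∈ cells K p S, t = ∑ x ∈ K, ∑ t ∈ Ico (S x) (S x + p x), t := by
  unfold cells
  exact sum_biUnion (pd hdis)

end

/-- **The weights.** -/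
theorem weights {α : Type} [DecidableEq α] {X Z : Finset α} {p ω d S pos : α → ℕ}
    {W Om F0 H Big : ℕ} (hXZ : Disjoint X Z) (hp : ∀ x ∈ X, 1 ≤ p x) (hpZ : ∀ x ∈ Z, p x = 1)
    (hW : Om < W) (hH0 : 0 < H)
    (hdis : ∀ x ∈ X ∪ Z, ∀ y ∈ X ∪ Z, x ≠ y → S x + p x ≤ S y ∨ S y + p y ≤ S x)
    (hH : H ≤ ∑ x ∈ X ∪ Z, p x) (hF : ∑ t ∈ range H, t = F0 + ∑ x ∈ Z, pos x)
    (hBig : W * (F0 + ∑ x ∈ X, tri (p x)) + Om < Big)
    (hcost : ∑ x ∈ X, (p x * W + ω x) * (S x + p x - d x) +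
      ∑ x ∈ Z, Big * (S x + 1 - (pos x + 1)) + ∑ x ∈ X, (p x * W + ω x) * d x ≤
        W * (F0 + ∑ x ∈ X, tri (p x)) + Om) :
    (∀ x ∈ Z, S x = pos x) ∧ (∀ x ∈ X, d x ≤ S x + p x) ∧
      ∑ x ∈ X, ω x * (S x + p x) ≤ Om ∧ ∀ x ∈ X ∪ Z, S x + p x ≤ H := by
  -- the rigid jobs are not late
  have hZ1 : ∀ x ∈ Z, S x ≤ pos x := by
    intro x hx
    by_contra hlt
    have h1 : Big * 1 ≤ Big * (S x + 1 - (pos x + 1)) := Nat.mul_le_mul_left _ (by omega)
    have h2 : Big * (S x + 1 - (pos x + 1)) ≤ ∑ x ∈ Z, Big * (S x + 1 - (pos x + 1)) :=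
      single_le_sum (f := fun x => Big * (S x + 1 - (pos x + 1))) (fun _ _ => Nat.zero_le _) hx
    omega
  -- completion times and due dates
  have h1 : ∑ x ∈ X, (p x * W + ω x) * (S x + p x - d x) + ∑ x ∈ X, (p x * W + ω x) * d x =
      ∑ x ∈ X, (p x * W + ω x) * (S x + p x) + ∑ x ∈ X, (p x * W + ω x) * (d x - (S x + p x)) := by
    rw [← sum_add_distrib, ← sum_add_distrib]
    refine sum_congr rfl fun x _ => ?_
    rw [← Nat.mul_add, ← Nat.mul_add]
    congr 1
    omega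
  have h2 : ∑ x ∈ X, (p x * W + ω x) * (S x + p x) =
      W * (∑ x ∈ X, ∑ t ∈ Ico (S x) (S x + p x), t) + W * (∑ x ∈ X, tri (p x)) +
        ∑ x ∈ X, ω x * (S x + p x) := by
    rw [mul_sum, mul_sum, ← sum_add_distrib, ← sum_add_distrib]
    refine sum_congr rfl fun x _ => ?_
    have := mul_end (S x) (p x)
    rw [add_mul, mul_right_comm, this]
    ring
  have h3 : ∑ t ∈ cells (X ∪ Z) p S, t =
      ∑ x ∈ X, (∑ t ∈ Ico (S x) (S x + p x), t) + ∑ x ∈ Z, S x := by
    rw [sum_cells hdis, sum_union hXZ]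
    congr 1
    refine sum_congr rfl fun x hx => ?_
    rw [hpZ x hx]
    simp
  have h4 : ∑ x ∈ Z, pos x = ∑ x ∈ Z, S x + ∑ x ∈ Z, (pos x - S x) := by
    rw [← sum_add_distrib]
    refine sum_congr rfl fun x hx => ?_
    have := hZ1 x hx
    omega
  have h5 := sum_ge (f := fun t => t) (fun a b h => h) (r := 0) (k := H) (M := cells (X ∪ Z) p S)
    (fun _ _ => Nat.zero_le _) (by rw [card_cells hdis]; exact hH)
  rw [Nat.zero_add, ← range_eq_Ico] at h5
  set V := ∑ x ∈ X, ∑ t ∈ Ico (S x) (S x + p x), t with hV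
  set Q := ∑ x ∈ X, tri (p x) with hQ
  set O := ∑ x ∈ X, ω x * (S x + p x) with hO
  set E := ∑ x ∈ X, (p x * W + ω x) * (d x - (S x + p x)) with hE
  set R := ∑ x ∈ Z, (pos x - S x) with hR
  set M := cells (X ∪ Z) p S with hM
  set D := (range H \ M).card with hD
  -- `V ≥ F0 + R + D + excess`
  have h6 : F0 + R + D ≤ V := by omega
  have h7 : W * V + W * Q + O + E ≤ W * (F0 + Q) + Om := by omega
  have h8 : W * (F0 + R + D) ≤ W * V := Nat.mul_le_mul_left _ h6
  have h9 : W * (R + D) + O + E ≤ Om := by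
    have e1 : W * (F0 + R + D) = W * F0 + W * (R + D) := by ring
    have e2 : W * (F0 + Q) = W * F0 + W * Q := by ring
    omega
  have h10 : R + D = 0 := by
    by_contra hne
    have : W * 1 ≤ W * (R + D) := Nat.mul_le_mul_left _ (by omega)
    omega
  have hR0 : R = 0 := by omega
  have hD0 : D = 0 := by omega
  rw [hR0, hD0] at h6
  have hS : ∀ x ∈ Z, S x = pos x := by
    intro x hx
    rw [hR, sum_eq_zero_iff] at hR0
    have := hR0 x hx
    have := hZ1 x hx
    omega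
  have hd : ∀ x ∈ X, d x ≤ S x + p x := by
    intro x hx
    by_contra hlt
    have e1 : (p x * W + ω x) * (d x - (S x + p x)) ≤ E :=
      single_le_sum (f := fun x => (p x * W + ω x) * (d x - (S x + p x)))
        (fun _ _ => Nat.zero_le _) hx
    have e2 : 1 * W ≤ p x * W := Nat.mul_le_mul_right _ (hp x hx)
    have e3 : (p x * W + ω x) * 1 ≤ (p x * W + ω x) * (d x - (S x + p x)) :=
      Nat.mul_le_mul_left _ (by omega)
    omega
  have hO' : O ≤ Om := by omega
  refine ⟨hS, hd, hO', ?_⟩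
  -- no cell after `H`
  have hVF : V = F0 := by
    by_contra hne
    have e1 : W * (F0 + 1) ≤ W * V := Nat.mul_le_mul_left _ (by omega)
    have e2 : W * (F0 + 1) = W * F0 + W := by ring
    have e3 : W * (F0 + Q) = W * F0 + W * Q := by ring
    omega
  have hsub : range H ⊆ M := by
    rw [← sdiff_eq_empty_iff_subset, ← card_eq_zero]
    exact hD0
  have hMH : M = range H := by
    have e1 : ∑ t ∈ M \ range H, t + ∑ t ∈ range H, t = ∑ t ∈ M, t := sum_sdiff hsub
    have e2 : ∑ t ∈ M \ range H, t = 0 := by omega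
    rw [sum_eq_zero_iff] at e2
    apply Subset.antisymm _ hsub
    intro t ht
    by_contra hnt
    have e3 := e2 t (mem_sdiff.2 ⟨ht, hnt⟩)
    rw [mem_range] at hnt
    omega
  intro x hx
  have hpx : 1 ≤ p x := by
    rw [mem_union] at hx
    rcases hx with h | h
    · exact hp x h
    · rw [hpZ x h]
  have : S x + p x - 1 ∈ M := by
    rw [hM, cells, mem_biUnion]
    exact ⟨x, hx, by rw [mem_Ico]; omega⟩
  rw [hMH, mem_range] at this
  omega

/-- The cost of a tight schedule. -/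
theorem weights_conv {α : Type} [DecidableEq α] {X Z : Finset α} {p ω d S pos : α → ℕ}
    {W F0 H Big : ℕ} (hXZ : Disjoint X Z) (hpZ : ∀ x ∈ Z, p x = 1)
    (hdis : ∀ x ∈ X ∪ Z, ∀ y ∈ X ∪ Z, x ≠ y → S x + p x ≤ S y ∨ S y + p y ≤ S x)
    (hH : ∑ x ∈ X ∪ Z, p x = H) (hF : ∑ t ∈ range H, t = F0 + ∑ x ∈ Z, pos x)
    (hS : ∀ x ∈ Z, S x = pos x) (hd : ∀ x ∈ X, d x ≤ S x + p x)
    (hle : ∀ x ∈ X ∪ Z, S x + p x ≤ H) :
    ∑ x ∈ X, (p x * W + ω x) * (S x + p x - d x) +
      ∑ x ∈ Z, Big * (S x + 1 - (pos x + 1)) + ∑ x ∈ X, (p x * W + ω x) * d x =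
        W * (F0 + ∑ x ∈ X, tri (p x)) + ∑ x ∈ X, ω x * (S x + p x) := by
  have hMH : cells (X ∪ Z) p S = range H := by
    apply eq_of_subset_of_card_le
    · intro t ht
      rw [cells, mem_biUnion] at ht
      obtain ⟨x, hx, h⟩ := ht
      rw [mem_Ico] at h
      have := hle x hx
      rw [mem_range]
      omega
    · rw [card_range, card_cells hdis, hH]
  have h0 : ∑ x ∈ Z, Big * (S x + 1 - (pos x + 1)) = 0 := by
    apply sum_eq_zero
    intro x hx
    rw [hS x hx, Nat.sub_self, Nat.mul_zero]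
  have h1 : ∑ x ∈ X, (p x * W + ω x) * (S x + p x - d x) + ∑ x ∈ X, (p x * W + ω x) * d x =
      ∑ x ∈ X, (p x * W + ω x) * (S x + p x) := by
    rw [← sum_add_distrib]
    refine sum_congr rfl fun x hx => ?_
    rw [← Nat.mul_add]
    congr 1
    have := hd x hx
    omega
  have h2 : ∑ x ∈ X, (p x * W + ω x) * (S x + p x) =
      W * (∑ x ∈ X, ∑ t ∈ Ico (S x) (S x + p x), t) + W * (∑ x ∈ X, tri (p x)) +
        ∑ x ∈ X, ω x * (S x + p x) := by
    rw [mul_sum, mul_sum, ← sum_add_distrib, ← sum_add_distrib]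
    refine sum_congr rfl fun x _ => ?_
    have := mul_end (S x) (p x)
    rw [add_mul, mul_right_comm, this]
    ring
  have h3 : ∑ t ∈ cells (X ∪ Z) p S, t =
      ∑ x ∈ X, (∑ t ∈ Ico (S x) (S x + p x), t) + ∑ x ∈ Z, S x := by
    rw [sum_cells hdis, sum_union hXZ]
    congr 1
    refine sum_congr rfl fun x hx => ?_
    rw [hpZ x hx]
    simp
  have h4 : ∑ x ∈ Z, S x = ∑ x ∈ Z, pos x := sum_congr rfl hS
  rw [hMH, hF, h4] at h3
  have h5 : ∑ x ∈ X, (∑ t ∈ Ico (S x) (S x + p x), t) = F0 := by omega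
  rw [h5] at h2
  rw [h0, Nat.add_zero, h1, h2]
  ring

end Pool.Agent.H257R2.WT
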