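import Pool.Agent.H257R2.WT.Core
import Pool.Agent.H741R2.LJSched

/-!
# Total weighted tardiness: the instance
-/

namespace Pool.Agent.H257R2.WT

open Pool.Agent.H741R2.LJ

/-- A sum over `0, ..., n - 1`. -/
def lsum (n : ℕ) (f : ℕ → ℕ) : ℕ := ((List.range n).map f).sum

theorem lsum_eq (n : ℕ) (f : ℕ → ℕ) : lsum n f = ∑ i ∈ Finset.range n, f i := by
  unfold lsum
  rw [← List.sum_toFinset f List.nodup_range, List.toFinset_range]

section

variable (m s : ℕ) (cg : ℕ → Bool)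

/-- The period of the blocks: `40 m` cells for the gaps and a long run of rigid cells. -/
def Lm : ℕ := 40 * m * (s + 1)

/-- The horizon. -/
def Hz : ℕ := Lm m s * s

/-- The first cell of a gap. -/
def Ps (g : ℕ) : ℕ := Lm m s * (g / (2 * m)) + 20 * (g % (2 * m))

/-- The gap of a cell. -/
def gi (t : ℕ) : ℕ := 2 * m * (t / Lm m s) + t % Lm m s / 20

/-- The rigid cells: each will be occupied by its own job. -/
def rg (c : ℕ) : Bool :=
  decide (40 * m ≤ c % Lm m s) || (decide (c % Lm m s % 20 = 19) ||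
    (decide (c % Lm m s % 20 = 18) && !cg (gi m s c)))

/-- The number of fillers. -/
def nf : ℕ := ((List.range (Hz m s)).filter (fun c => !rg m s cg c)).length -
  (lsum (2 * m * s) (fun g => len m (0, g)) + lsum (2 * m * s) (fun g => len m (1, g)) + 2 * s)

/-- The flexible jobs. -/
def keysX : List Ky :=
  (List.range (2 * m * s)).map (fun g => (0, g)) ++
  ((List.range (2 * m * s)).map (fun g => (1, g)) ++
  ((List.range s).map (fun g => (2, g)) ++ (List.range (nf m s cg)).map (fun g => (3, g))))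

/-- The rigid jobs. -/
def keysZ : List Ky := ((List.range (Hz m s)).filter (fun c => rg m s cg c)).map (fun c => (4, c))

/-- All jobs. -/
def keysW : List Ky := keysX m s cg ++ keysZ m s cg

/-- The sum of the free cells. -/
def F0 : ℕ := lsum (Hz m s) (fun c => if rg m s cg c = true then 0 else c)

/-- The sum of `1 + ⋯ + p` over the flexible jobs. -/
def QQ : ℕ := lsum (2 * m * s) (fun g => tri (len m (0, g))) +
  lsum (2 * m * s) (fun g => tri (len m (1, g))) + lsum s (fun _ => 3) + nf m s cg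

def OC : ℕ := lsum s (fun r => Lm m s * r + 40 * m)

def OB : ℕ := lsum (2 * m * s) (fun g => cnt (2 * m * s) (s2 m s) g *
  (Ps m s g + if Ev m g then 17 else 18))

def OA : ℕ := lsum (2 * m * s) (fun g => cnt (2 * m * s) (s1 m) g * (Ps m s g + len m (0, g)))

def W2 : ℕ := OC m s + 1

def W1 : ℕ := W2 m s * OB m s + OC m s + 1

def Om : ℕ := W1 m s * OA m s + W2 m s * OB m s + OC m s

def WW : ℕ := Om m s + 1

def AA : ℕ := WW m s * (F0 m s cg + QQ m s cg) + Om m s

/-- The small part of the weight. -/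
def om (x : Ky) : ℕ :=
  if x.1 = 0 then W1 m s * cnt (2 * m * s) (s1 m) x.2 else
  if x.1 = 1 then W2 m s * cnt (2 * m * s) (s2 m s) x.2 else
  if x.1 = 2 then 1 else 0

/-- The weight. -/
def wt (x : Ky) : ℕ := if x.1 = 4 then AA m s cg + 1 else len m x * WW m s + om m s x

/-- The due date. -/
def due' (x : Ky) : ℕ :=
  if x.1 = 0 then Ps m s (min x.2 (s1 m x.2)) + len m x else
  if x.1 = 1 then Ps m s (min x.2 (s2 m s x.2)) + len m x else
  if x.1 = 2 then Lm m s * x.2 + 2 else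
  if x.1 = 3 then 0 else x.2 + 1

def BB : ℕ := lsum (2 * m * s) (fun g => wt m s cg (0, g) * due' m s (0, g)) +
  lsum (2 * m * s) (fun g => wt m s cg (1, g) * due' m s (1, g)) +
  lsum s (fun g => wt m s cg (2, g) * due' m s (2, g))

/-- There is a cheap schedule. -/
def Cheap : Prop :=
  ∃ S : Ky → ℕ, (∀ x ∈ keysW m s cg, ∀ y ∈ keysW m s cg, x ≠ y →
      S x + len m x ≤ S y ∨ S y + len m y ≤ S x) ∧
    ((keysW m s cg).map (fun x => wt m s cg x * (S x + len m x - due' m s x))).sum +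
      BB m s cg ≤ AA m s cg

end

/-! ## Gaps and cells -/

section

variable {m s : ℕ} {cg : ℕ → Bool}

theorem Lm_ge (m s : ℕ) : 40 * m ≤ Lm m s := by
  unfold Lm
  exact Nat.le_mul_of_pos_right _ (by omega)

theorem Lm_eq (m s : ℕ) : Lm m s = 40 * m + 40 * m * s := by
  unfold Lm
  ring

theorem Ps_eq {b a : ℕ} (ha : a < 2 * m) : Ps m s (2 * m * b + a) = Lm m s * b + 20 * a := by
  obtain ⟨h1, h2⟩ := dm (2 * m) b a ha
  unfold Ps
  rw [h1, h2]

theorem gi_eq {b u : ℕ} (hu : u < Lm m s) : gi m s (Lm m s * b + u) = 2 * m * b + u / 20 := by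
  obtain ⟨h1, h2⟩ := dm (Lm m s) b u hu
  unfold gi
  rw [h1, h2]

theorem gi_Ps (hm : 0 < m) {g o : ℕ} (ho : o < 20) : gi m s (Ps m s g + o) = g := by
  obtain ⟨b, a, ha, rfl⟩ := s1_cases hm g
  have := Lm_ge m s
  rw [Ps_eq ha, Nat.add_assoc, gi_eq (by omega)]
  omega

theorem Ps_lt (hm : 0 < m) {g h : ℕ} (hgh : g < h) : Ps m s g + 20 ≤ Ps m s h := by
  obtain ⟨b, a, ha, rfl⟩ := s1_cases hm g
  obtain ⟨c, d, hd, rfl⟩ := s1_cases hm h
  have hL := Lm_ge m s
  rw [Ps_eq ha, Ps_eq hd]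
  have hbc : b ≤ c := by
    by_contra hcon
    have := Nat.mul_le_mul_left (2 * m) (show c + 1 ≤ b by omega)
    rw [Nat.mul_add, Nat.mul_one] at this
    omega
  rcases Nat.lt_or_eq_of_le hbc with h1 | h1
  · have := Nat.mul_le_mul_left (Lm m s) (show b + 1 ≤ c by omega)
    rw [Nat.mul_add, Nat.mul_one] at this
    omega
  · subst h1
    omega

theorem Ps_mono (hm : 0 < m) : StrictMono (Ps m s) := fun g h hgh => by
  have := Ps_lt (s := s) hm hgh
  omega

theorem Ps_Hz (hm : 0 < m) {g : ℕ} (hg : g < 2 * m * s) : Ps m s g + 20 ≤ Hz m s := by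
  obtain ⟨b, a, ha, rfl⟩ := s1_cases hm g
  have hL := Lm_ge m s
  have h1 := (block_lt ha hg).1
  have := Nat.mul_le_mul_left (Lm m s) (show b + 1 ≤ s by omega)
  rw [Nat.mul_add, Nat.mul_one] at this
  rw [Ps_eq ha]
  unfold Hz
  omega

/-- The cells and the gaps. -/
theorem cell (hm : 0 < m) {t : ℕ} (ht : t % Lm m s < 40 * m) :
    t = Ps m s (gi m s t) + t % Lm m s % 20 ∧ (t < Hz m s → gi m s t < 2 * m * s) ∧
      gi m s t / (2 * m) = t / Lm m s := by
  have hdm := Nat.div_add_mod t (Lm m s)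
  have ha : t % Lm m s / 20 < 2 * m := by omega
  refine ⟨?_, ?_, ?_⟩
  · unfold gi
    rw [Ps_eq ha]
    omega
  · intro hH
    have h1 : t / Lm m s < s := by
      rw [Nat.div_lt_iff_lt_mul (by have := Lm_ge m s; omega), Nat.mul_comm]
      exact hH
    have := Nat.mul_le_mul_left (2 * m) (show t / Lm m s + 1 ≤ s by omega)
    rw [Nat.mul_add, Nat.mul_one] at this
    unfold gi
    omega
  · unfold gi
    exact (dm (2 * m) _ _ ha).1

theorem rg_false {c : ℕ} : rg m s cg c = false ↔ c % Lm m s < 40 * m ∧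
    c % Lm m s % 20 ≠ 19 ∧ (c % Lm m s % 20 = 18 → cg (gi m s c) = true) := by
  unfold rg
  simp only [Bool.or_eq_false_iff, decide_eq_false_iff_not, not_le, Bool.and_eq_false_iff,
    Bool.not_eq_false', ne_eq]
  constructor
  · rintro ⟨h1, h2, h3⟩
    refine ⟨h1, h2, fun h4 => ?_⟩
    rcases h3 with h3 | h3
    · exact absurd h4 h3
    · exact h3
  · rintro ⟨h1, h2, h3⟩
    refine ⟨h1, h2, ?_⟩
    by_cases h4 : c % Lm m s % 20 = 18
    · exact Or.inr (h3 h4)
    · exact Or.inl h4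

theorem Ps_mod (hm : 0 < m) {g o : ℕ} (ho : o < 20) :
    (Ps m s g + o) % Lm m s < 40 * m ∧ (Ps m s g + o) % Lm m s % 20 = o := by
  obtain ⟨b, a, ha, rfl⟩ := s1_cases hm g
  have := Lm_ge m s
  rw [Ps_eq ha, Nat.add_assoc, (dm (Lm m s) b (20 * a + o) (by omega)).2]
  omega

theorem rg_Ps (hm : 0 < m) {g o : ℕ} (ho : o < 20) :
    rg m s cg (Ps m s g + o) = false ↔ o ≠ 19 ∧ (o = 18 → cg g = true) := by
  obtain ⟨h1, h2⟩ := Ps_mod (s := s) hm (g := g) ho
  rw [rg_false, h2, gi_Ps hm ho]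
  exact ⟨fun h => h.2, fun h => ⟨h1, h⟩⟩

/-- A job in free cells is in one gap. -/
theorem fit (hm : 0 < m) {t l : ℕ} (hl : 1 ≤ l)
    (hc : ∀ c, t ≤ c → c < t + l → rg m s cg c = false) :
    Ps m s (gi m s t) ≤ t ∧ t + l ≤ Ps m s (gi m s t) + 19 ∧
      (cg (gi m s t) = false → t + l ≤ Ps m s (gi m s t) + 18) := by
  have h0 := rg_false.1 (hc t le_rfl (by omega))
  obtain ⟨h1, _, _⟩ := cell hm h0.1
  refine ⟨by omega, ?_, ?_⟩
  · by_contra hlt
    have := hc (Ps m s (gi m s t) + 19) (by omega) (by omega)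
    rw [rg_Ps hm (by omega)] at this
    exact this.1 rfl
  · intro hcg
    by_contra hlt
    by_cases h18 : t ≤ Ps m s (gi m s t) + 18
    · have := hc (Ps m s (gi m s t) + 18) h18 (by omega)
      rw [rg_Ps hm (by omega)] at this
      rw [this.2 rfl] at hcg
      exact absurd hcg (by decide)
    · omega

/-! ## The keys -/

theorem mem_keysX {x : Ky} : x ∈ keysX m s cg ↔ (x.1 = 0 ∧ x.2 < 2 * m * s) ∨
    (x.1 = 1 ∧ x.2 < 2 * m * s) ∨ (x.1 = 2 ∧ x.2 < s) ∨ (x.1 = 3 ∧ x.2 < nf m s cg) := by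
  obtain ⟨a, g⟩ := x
  unfold keysX
  simp only [List.mem_append, List.mem_map, List.mem_range, Prod.mk.injEq]
  constructor
  · rintro (⟨h, h1, h2, h3⟩ | ⟨h, h1, h2, h3⟩ | ⟨h, h1, h2, h3⟩ | ⟨h, h1, h2, h3⟩) <;>
      subst h3 <;> subst h2
    · exact Or.inl ⟨rfl, h1⟩
    · exact Or.inr (Or.inl ⟨rfl, h1⟩)
    · exact Or.inr (Or.inr (Or.inl ⟨rfl, h1⟩))
    · exact Or.inr (Or.inr (Or.inr ⟨rfl, h1⟩))
  · rintro (⟨h1, h2⟩ | ⟨h1, h2⟩ | ⟨h1, h2⟩ | ⟨h1, h2⟩) <;> subst h1
    · exact Or.inl ⟨g, h2, rfl, rfl⟩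
    · exact Or.inr (Or.inl ⟨g, h2, rfl, rfl⟩)
    · exact Or.inr (Or.inr (Or.inl ⟨g, h2, rfl, rfl⟩))
    · exact Or.inr (Or.inr (Or.inr ⟨g, h2, rfl, rfl⟩))

theorem mem_keysZ {x : Ky} : x ∈ keysZ m s cg ↔ x.1 = 4 ∧ x.2 < Hz m s ∧ rg m s cg x.2 = true := by
  obtain ⟨a, g⟩ := x
  unfold keysZ
  simp only [List.mem_map, List.mem_range, List.mem_filter, Prod.mk.injEq]
  constructor
  · rintro ⟨h, ⟨h1, h2⟩, h3, h4⟩
    subst h4
    exact ⟨h3.symm, h1, h2⟩
  · rintro ⟨h1, h2, h3⟩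
    exact ⟨g, ⟨h2, h3⟩, h1.symm, rfl⟩

theorem keysX_nodup : (keysX m s cg).Nodup := by
  have hinj : ∀ k : ℕ, Function.Injective (fun g : ℕ => ((k, g) : Ky)) := fun k a b h =>
    congrArg Prod.snd h
  have hm : ∀ (k : ℕ) (l : List ℕ) (x : Ky), x ∈ l.map (fun g => ((k, g) : Ky)) → x.1 = k := by
    intro k l x hx
    rw [List.mem_map] at hx
    obtain ⟨g, _, rfl⟩ := hx
    rfl
  unfold keysX
  rw [List.nodup_append', List.nodup_append', List.nodup_append']
  refine ⟨List.nodup_range.map (hinj 0), ⟨List.nodup_range.map (hinj 1),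
    ⟨List.nodup_range.map (hinj 2), List.nodup_range.map (hinj 3), ?_⟩, ?_⟩, ?_⟩
  · intro x hx hy
    have h1 := hm _ _ _ hx
    have h2 := hm _ _ _ hy
    omega
  · intro x hx hy
    have h1 := hm _ _ _ hx
    rw [List.mem_append] at hy
    rcases hy with hy | hy <;> have h2 := hm _ _ _ hy <;> omega
  · intro x hx hy
    have h1 := hm _ _ _ hx
    rw [List.mem_append, List.mem_append] at hy
    rcases hy with hy | hy | hy <;> have h2 := hm _ _ _ hy <;> omega

theorem keysZ_nodup : (keysZ m s cg).Nodup :=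
  (List.nodup_range.filter _).map fun a b h => congrArg Prod.snd h

theorem keys_disj : ∀ x ∈ keysX m s cg, x ∉ keysZ m s cg := by
  intro x hx hz
  rw [mem_keysX] at hx
  rw [mem_keysZ] at hz
  omega

theorem keysW_nodup : (keysW m s cg).Nodup := by
  unfold keysW
  rw [List.nodup_append']
  exact ⟨keysX_nodup, keysZ_nodup, fun x hx hz => keys_disj x hx hz⟩

theorem keysW_toFinset : (keysW m s cg).toFinset =
    (keysX m s cg).toFinset ∪ (keysZ m s cg).toFinset := by
  unfold keysW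
  rw [List.toFinset_append]

theorem disjXZ : Disjoint (keysX m s cg).toFinset (keysZ m s cg).toFinset := by
  rw [Finset.disjoint_left]
  intro x hx hz
  rw [List.mem_toFinset] at hx hz
  exact keys_disj x hx hz

theorem sum_keysX (F : Ky → ℕ) : ∑ x ∈ (keysX m s cg).toFinset, F x =
    ∑ g ∈ Finset.range (2 * m * s), F (0, g) + ∑ g ∈ Finset.range (2 * m * s), F (1, g) +
    ∑ g ∈ Finset.range s, F (2, g) + ∑ g ∈ Finset.range (nf m s cg), F (3, g) := by
  rw [List.sum_toFinset _ keysX_nodup]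
  unfold keysX
  rw [← lsum_eq, ← lsum_eq, ← lsum_eq, ← lsum_eq]
  unfold lsum
  simp only [List.map_append, List.map_map, List.sum_append]
  simp only [Function.comp_def]
  ring

theorem sum_keysZ (F : Ky → ℕ) : ∑ x ∈ (keysZ m s cg).toFinset, F x =
    ∑ c ∈ (Finset.range (Hz m s)).filter (fun c => rg m s cg c = true), F (4, c) := by
  have : (keysZ m s cg).toFinset = ((Finset.range (Hz m s)).filter
      (fun c => rg m s cg c = true)).image (fun c => ((4, c) : Ky)) := by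
    ext x
    rw [List.mem_toFinset, mem_keysZ, Finset.mem_image]
    obtain ⟨a, g⟩ := x
    simp only [Finset.mem_filter, Finset.mem_range, Prod.mk.injEq]
    constructor
    · rintro ⟨h1, h2, h3⟩
      exact ⟨g, ⟨h2, h3⟩, h1.symm, rfl⟩
    · rintro ⟨h, ⟨h1, h2⟩, h3, h4⟩
      subst h4
      exact ⟨h3.symm, h1, h2⟩
  rw [this, Finset.sum_image (fun a _ b _ h => congrArg Prod.snd h)]

end

end Pool.Agent.H257R2.WT
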