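import Pool.Agent.H257R2.WT.Defs
import Pool.Agent.H741R2.LJPoly

/-!
# Total weighted tardiness: the instance is computable in polynomial time
-/

namespace Pool.Agent.H257R2.WT

open Pool.Agent.H741R2.LJ Pool.Agent.NPC

section

variable {α : Type} [TEnc α] {φ : α → List Cl} {g : α → ℕ}

theorem m_u (hφ : Poly φ) : UPoly (fun a => mm (φ a)) := mm_u.comp hφ

theorem s_u (hφ : Poly φ) : UPoly (fun a => (φ a).length) := UPoly.length hφ

theorem m_p (hφ : Poly φ) : Poly (fun a => mm (φ a)) := (m_u hφ).toPoly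

theorem s_p (hφ : Poly φ) : Poly (fun a => (φ a).length) := (s_u hφ).toPoly

theorem G_u (hφ : Poly φ) : UPoly (fun a => 2 * mm (φ a) * (φ a).length) :=
  UPoly.mul (UPoly.mul (UPoly.const 2) (m_u hφ)) (s_u hφ)

theorem Lm_u (hφ : Poly φ) : UPoly (fun a => Lm (mm (φ a)) (φ a).length) :=
  UPoly.mul (UPoly.mul (UPoly.const 40) (m_u hφ)) (UPoly.add (s_u hφ) (UPoly.const 1))

theorem Hz_u (hφ : Poly φ) : UPoly (fun a => Hz (mm (φ a)) (φ a).length) :=
  UPoly.mul (Lm_u hφ) (s_u hφ)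

theorem Ps_p (hφ : Poly φ) (hg : Poly g) : Poly (fun a => Ps (mm (φ a)) (φ a).length (g a)) := by
  have h1 := (Lm_u hφ).toPoly
  have h2 := m_p hφ
  unfold Ps
  fun_prop

theorem gi_p (hφ : Poly φ) (hg : Poly g) : Poly (fun a => gi (mm (φ a)) (φ a).length (g a)) := by
  have h1 := (Lm_u hφ).toPoly
  have h2 := m_p hφ
  unfold gi
  fun_prop

theorem rg_p (hφ : Poly φ) (hg : Poly g) :
    Poly (fun a => rg (mm (φ a)) (φ a).length (cg (φ a)) (g a)) := by
  have h1 := (Lm_u hφ).toPoly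
  have h2 := m_p hφ
  have h3 := cg_poly hφ (gi_p hφ hg)
  unfold rg
  fun_prop

theorem cnt_p {σ : α → ℕ → ℕ} (hφ : Poly φ) (hσ : Poly (fun p : α × ℕ => σ p.1 p.2))
    (hg : Poly g) : Poly (fun a => cnt (2 * mm (φ a) * (φ a).length) (σ a) (g a)) := by
  have h1 : Poly (fun p : α × ℕ => g p.1) := hg.comp (Poly.fst Poly.id)
  have h2 : Poly (fun p : α × ℕ => p.2) := Poly.snd Poly.id
  unfold cnt
  exact Poly.length (Poly.filter (p := fun a i => decide (min i (σ a i) ≤ g a ∧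
    g a ≤ max i (σ a i))) (G_u hφ).range (by fun_prop))

theorem cnt1_p (hφ : Poly φ) (hg : Poly g) :
    Poly (fun a => cnt (2 * mm (φ a) * (φ a).length) (s1 (mm (φ a))) (g a)) :=
  cnt_p hφ (s1_poly (m_p (hφ.comp (Poly.fst Poly.id))) (Poly.snd Poly.id)) hg

theorem cnt2_p (hφ : Poly φ) (hg : Poly g) :
    Poly (fun a => cnt (2 * mm (φ a) * (φ a).length) (s2 (mm (φ a)) (φ a).length) (g a)) :=
  cnt_p hφ (s2_poly (m_p (hφ.comp (Poly.fst Poly.id))) (s_p (hφ.comp (Poly.fst Poly.id)))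
    (Poly.snd Poly.id)) hg

theorem lsum_p {n : α → ℕ} {F : α → ℕ → ℕ} (hn : UPoly n)
    (hF : Poly (fun p : α × ℕ => F p.1 p.2)) : Poly (fun a => lsum (n a) (F a)) :=
  Poly.sum (NPC.Poly.map hn.range hF)

theorem len_p {k : ℕ} (hφ : Poly φ) (hg : Poly g) : Poly (fun a => len (mm (φ a)) (k, g a)) :=
  lenf_poly (m_p hφ) (Poly.pair (NPC.Poly.const k) hg)

theorem F0_p (hφ : Poly φ) : Poly (fun a => F0 (mm (φ a)) (φ a).length (cg (φ a))) := by
  unfold F0
  refine lsum_p (F := fun a c => if rg (mm (φ a)) (φ a).length (cg (φ a)) c = true then 0 else c)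
    (Hz_u hφ) (Poly.ite (p := fun p : α × ℕ =>
      rg (mm (φ p.1)) (φ p.1).length (cg (φ p.1)) p.2 = true) ?_ (NPC.Poly.const 0)
      (Poly.snd Poly.id))
  have := rg_p (hφ.comp (Poly.fst (β := α) (γ := ℕ) Poly.id)) (Poly.snd (β := α) (γ := ℕ) Poly.id)
  exact Poly.decide_bool this

theorem nf_p (hφ : Poly φ) : Poly (fun a => nf (mm (φ a)) (φ a).length (cg (φ a))) := by
  have h1 : Poly (fun a => ((List.range (Hz (mm (φ a)) (φ a).length)).filter
      (fun c => !rg (mm (φ a)) (φ a).length (cg (φ a)) c)).length) :=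
    Poly.length (Poly.filter (p := fun a c => !rg (mm (φ a)) (φ a).length (cg (φ a)) c)
      (Hz_u hφ).range (Poly.not (rg_p (hφ.comp (Poly.fst Poly.id)) (Poly.snd Poly.id))))
  have h2 : ∀ k : ℕ, Poly (fun a => lsum (2 * mm (φ a) * (φ a).length)
      (fun g => len (mm (φ a)) (k, g))) := fun k =>
    lsum_p (F := fun a g => len (mm (φ a)) (k, g)) (G_u hφ)
      (len_p (hφ.comp (Poly.fst Poly.id)) (Poly.snd Poly.id))
  have h3 := h2 0
  have h4 := h2 1
  have h5 := s_p hφ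
  unfold nf
  fun_prop

theorem nf_le (m s : ℕ) (cg : ℕ → Bool) : nf m s cg ≤ Hz m s := by
  unfold nf
  refine (Nat.sub_le _ _).trans ((List.length_filter_le _ _).trans ?_)
  rw [List.length_range]

theorem nf_u (hφ : Poly φ) : UPoly (fun a => nf (mm (φ a)) (φ a).length (cg (φ a))) :=
  UPoly.of_le (nf_p hφ) (Hz_u hφ) fun _ => nf_le _ _ _

theorem tri_p (hg : Poly g) : Poly (fun a => tri (g a)) := by
  unfold tri
  fun_prop

theorem QQ_p (hφ : Poly φ) : Poly (fun a => QQ (mm (φ a)) (φ a).length (cg (φ a))) := by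
  have h2 : ∀ k : ℕ, Poly (fun a => lsum (2 * mm (φ a) * (φ a).length)
      (fun g => tri (len (mm (φ a)) (k, g)))) := fun k =>
    lsum_p (F := fun a g => tri (len (mm (φ a)) (k, g))) (G_u hφ)
      (tri_p (len_p (hφ.comp (Poly.fst Poly.id)) (Poly.snd Poly.id)))
  have h3 : Poly (fun a => lsum (φ a).length (fun _ => 3)) :=
    lsum_p (F := fun _ _ => 3) (s_u hφ) (NPC.Poly.const 3)
  have h4 := h2 0
  have h5 := h2 1
  have h6 := nf_p hφ
  unfold QQ
  fun_prop

theorem OC_p (hφ : Poly φ) : Poly (fun a => OC (mm (φ a)) (φ a).length) := by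
  unfold OC
  refine lsum_p (F := fun a r => Lm (mm (φ a)) (φ a).length * r + 40 * mm (φ a)) (s_u hφ) ?_
  have h1 := (Lm_u (hφ.comp (Poly.fst (β := α) (γ := ℕ) Poly.id))).toPoly
  have h2 := m_p (hφ.comp (Poly.fst (β := α) (γ := ℕ) Poly.id))
  fun_prop

theorem OB_p (hφ : Poly φ) : Poly (fun a => OB (mm (φ a)) (φ a).length) := by
  unfold OB
  refine lsum_p (F := fun a g => cnt (2 * mm (φ a) * (φ a).length)
    (s2 (mm (φ a)) (φ a).length) g * (Ps (mm (φ a)) (φ a).length g +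
      if Ev (mm (φ a)) g then 17 else 18)) (G_u hφ) ?_
  have hφ' : Poly (fun p : α × ℕ => φ p.1) := hφ.comp (Poly.fst Poly.id)
  have hg' : Poly (fun p : α × ℕ => p.2) := Poly.snd Poly.id
  have h1 := cnt2_p hφ' hg'
  have h2 := Ps_p hφ' hg'
  have h3 : Poly (fun p : α × ℕ => if Ev (mm (φ p.1)) p.2 then 17 else 18) :=
    Poly.ite (p := fun p : α × ℕ => Ev (mm (φ p.1)) p.2) (ev_poly (m_p hφ') hg') (NPC.Poly.const 17)
      (NPC.Poly.const 18)
  fun_prop

theorem OA_p (hφ : Poly φ) : Poly (fun a => OA (mm (φ a)) (φ a).length) := by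
  unfold OA
  refine lsum_p (F := fun a g => cnt (2 * mm (φ a) * (φ a).length)
    (s1 (mm (φ a))) g * (Ps (mm (φ a)) (φ a).length g + len (mm (φ a)) (0, g))) (G_u hφ) ?_
  have hφ' : Poly (fun p : α × ℕ => φ p.1) := hφ.comp (Poly.fst Poly.id)
  have hg' : Poly (fun p : α × ℕ => p.2) := Poly.snd Poly.id
  have h1 := cnt1_p hφ' hg'
  have h2 := Ps_p hφ' hg'
  have h3 := len_p (k := 0) hφ' hg'
  fun_prop

theorem W2_p (hφ : Poly φ) : Poly (fun a => W2 (mm (φ a)) (φ a).length) := by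
  have := OC_p hφ
  unfold W2
  fun_prop

theorem W1_p (hφ : Poly φ) : Poly (fun a => W1 (mm (φ a)) (φ a).length) := by
  have := OC_p hφ
  have := OB_p hφ
  have := W2_p hφ
  unfold W1
  fun_prop

theorem Om_p (hφ : Poly φ) : Poly (fun a => Om (mm (φ a)) (φ a).length) := by
  have := OC_p hφ
  have := OB_p hφ
  have := OA_p hφ
  have := W2_p hφ
  have := W1_p hφ
  unfold Om
  fun_prop

theorem WW_p (hφ : Poly φ) : Poly (fun a => WW (mm (φ a)) (φ a).length) := by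
  have := Om_p hφ
  unfold WW
  fun_prop

theorem AA_p (hφ : Poly φ) : Poly (fun a => AA (mm (φ a)) (φ a).length (cg (φ a))) := by
  have := Om_p hφ
  have := WW_p hφ
  have := F0_p hφ
  have := QQ_p hφ
  unfold AA
  fun_prop

variable {x : α → Ky}

theorem om_p (hφ : Poly φ) (hx : Poly x) :
    Poly (fun a => om (mm (φ a)) (φ a).length (x a)) := by
  have := W2_p hφ
  have := W1_p hφ
  have := cnt1_p hφ (Poly.snd hx)
  have := cnt2_p hφ (Poly.snd hx)
  unfold om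
  refine Poly.ite (p := fun a => (x a).1 = 0) ?_ ?_ (Poly.ite (p := fun a => (x a).1 = 1) ?_ ?_
    (Poly.ite (p := fun a => (x a).1 = 2) ?_ ?_ ?_)) <;> fun_prop

theorem wt_p (hφ : Poly φ) (hx : Poly x) :
    Poly (fun a => wt (mm (φ a)) (φ a).length (cg (φ a)) (x a)) := by
  have := AA_p hφ
  have := WW_p hφ
  have := om_p hφ hx
  have := lenf_poly (m_p hφ) hx
  unfold wt
  refine Poly.ite (p := fun a => (x a).1 = 4) ?_ ?_ ?_ <;> fun_prop

theorem due_p (hφ : Poly φ) (hx : Poly x) :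
    Poly (fun a => due' (mm (φ a)) (φ a).length (x a)) := by
  have h1 := s1_poly (m_p hφ) (Poly.snd hx)
  have h2 := s2_poly (m_p hφ) (s_p hφ) (Poly.snd hx)
  have := Ps_p hφ (Poly.min (Poly.snd hx) h1)
  have := Ps_p hφ (Poly.min (Poly.snd hx) h2)
  have := lenf_poly (m_p hφ) hx
  have := (Lm_u hφ).toPoly
  unfold due'
  refine Poly.ite (p := fun a => (x a).1 = 0) ?_ ?_ (Poly.ite (p := fun a => (x a).1 = 1) ?_ ?_
    (Poly.ite (p := fun a => (x a).1 = 2) ?_ ?_ (Poly.ite (p := fun a => (x a).1 = 3) ?_ ?_ ?_)))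
    <;> fun_prop

theorem BB_p (hφ : Poly φ) : Poly (fun a => BB (mm (φ a)) (φ a).length (cg (φ a))) := by
  have hφ' : Poly (fun p : α × ℕ => φ p.1) := hφ.comp (Poly.fst Poly.id)
  have h1 : ∀ k : ℕ, Poly (fun p : α × ℕ => wt (mm (φ p.1)) (φ p.1).length (cg (φ p.1)) (k, p.2) *
      due' (mm (φ p.1)) (φ p.1).length (k, p.2)) := fun k =>
    Poly.mul (wt_p hφ' (Poly.pair (NPC.Poly.const k) (Poly.snd Poly.id)))
      (due_p hφ' (Poly.pair (NPC.Poly.const k) (Poly.snd Poly.id)))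
  unfold BB
  exact Poly.add (Poly.add
    (lsum_p (F := fun a g => wt (mm (φ a)) (φ a).length (cg (φ a)) (0, g) *
      due' (mm (φ a)) (φ a).length (0, g)) (G_u hφ) (h1 0))
    (lsum_p (F := fun a g => wt (mm (φ a)) (φ a).length (cg (φ a)) (1, g) *
      due' (mm (φ a)) (φ a).length (1, g)) (G_u hφ) (h1 1)))
    (lsum_p (F := fun a g => wt (mm (φ a)) (φ a).length (cg (φ a)) (2, g) *
      due' (mm (φ a)) (φ a).length (2, g)) (s_u hφ) (h1 2))

theorem keysW_p (hφ : Poly φ) :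
    Poly (fun a => keysW (mm (φ a)) (φ a).length (cg (φ a))) := by
  have hk : ∀ k : ℕ, Poly (fun p : α × ℕ => ((k, p.2) : Ky)) := fun k =>
    Poly.pair (NPC.Poly.const k) (Poly.snd Poly.id)
  unfold keysW keysX keysZ
  refine Poly.append (Poly.append (NPC.Poly.map (F := fun _ g => ((0, g) : Ky)) (G_u hφ).range (hk 0))
    (Poly.append (NPC.Poly.map (F := fun _ g => ((1, g) : Ky)) (G_u hφ).range (hk 1)) (Poly.append
    (NPC.Poly.map (F := fun _ g => ((2, g) : Ky)) (s_u hφ).range (hk 2))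
    (NPC.Poly.map (F := fun _ g => ((3, g) : Ky)) (nf_u hφ).range (hk 3)))))
    (NPC.Poly.map (F := fun _ g => ((4, g) : Ky)) ?_ (hk 4))
  exact Poly.filter (p := fun a c => rg (mm (φ a)) (φ a).length (cg (φ a)) c) (Hz_u hφ).range
    (rg_p (hφ.comp (Poly.fst Poly.id)) (Poly.snd Poly.id))

end

end Pool.Agent.H257R2.WT
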