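import Pool.Agent.NPC.Classes

/-!
# Total weighted tardiness on one machine: definitions
-/

namespace Pool.Agent.H257R2.WT

/-- `S` (the start times) is a schedule on one machine of `n` jobs with processing times `p`: no
job starts before time `0`, and no two jobs overlap (without preemption; idle time is allowed). -/
structure IsSchedule {n : ℕ} (p : Fin n → ℕ) (S : Fin n → ℝ) : Prop where
  /-- no job starts before time `0` -/
  nonneg : ∀ j, 0 ≤ S j
  /-- one job at a time, without preemption -/
  disjoint : ∀ i j, i ≠ j → S i + p i ≤ S j ∨ S j + p j ≤ S i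

/-- The total weighted tardiness: the sum of `w_j max(0, C_j - d_j)`, with the completion times
`C_j = S_j + p_j`. -/
noncomputable def tardiness {n : ℕ} (p d w : Fin n → ℕ) (S : Fin n → ℝ) : ℝ :=
  ∑ j, (w j : ℝ) * max 0 (S j + p j - d j)

/-- The decision version of `1 || ∑ w_j T_j`.  An instance is a list of jobs `(p_j, d_j, w_j)` with
`1 ≤ p_j`, and an integer `k`; is there a schedule with total weighted tardiness at most `k`?
(Numbers are written in binary.) -/
def Tardy (I : List (ℕ × ℕ × ℕ) × ℤ) : Prop :=
  (∀ j ∈ I.1, 1 ≤ j.1) ∧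
    ∃ S : Fin I.1.length → ℝ, IsSchedule (fun j => I.1[j].1) S ∧
      tardiness (fun j => I.1[j].1) (fun j => I.1[j].2.1) (fun j => I.1[j].2.2) S ≤ I.2

/-- The maximum processing time of the jobs. -/
def pmax (I : List (ℕ × ℕ × ℕ) × ℤ) : ℕ := I.1.foldr (fun j m => max j.1 m) 0

end Pool.Agent.H257R2.WT
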