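import Pool.Agent.H257R2.WT.Prob
import Pool.Agent.H257R2.WT.Conv
import Pool.Agent.H257R2.WT.Poly
import Pool.Agent.H633R2.Fpt

/-!
# Total weighted tardiness: the reduction
-/

namespace Pool.Agent.H257R2.WT

open Pool.Agent.H741R2.LJ Pool.Agent.NPC

/-- Integral start times suffice. -/
theorem tardy_iff {α : Type} (l : List α) (hl : l.Nodup) (p d w : α → ℕ) (hp : ∀ x, 0 < p x)
    (k : ℤ) : Tardy (l.map (fun x => (p x, d x, w x)), k) ↔
    ∃ t : α → ℕ, (∀ x ∈ l, ∀ y ∈ l, x ≠ y → t x + p x ≤ t y ∨ t y + p y ≤ t x) ∧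
      (((l.map (fun x => w x * (t x + p x - d x))).sum : ℕ) : ℤ) ≤ k := by
  classical
  have hlen : (l.map (fun x => (p x, d x, w x))).length = l.length := List.length_map _
  have key : ∀ t : α → ℕ, (((l.map (fun x => w x * (t x + p x - d x))).sum : ℕ) : ℝ) =
      ∑ j : Fin l.length, (w l[j] : ℝ) * ((t l[j] + p l[j] - d l[j] : ℕ) : ℝ) := by
    intro t
    rw [← Fin.sum_univ_fun_getElem l (fun x => w x * (t x + p x - d x))]
    push_cast
    rfl
  have trans : ∀ S : Fin (l.map (fun x => (p x, d x, w x))).length → ℝ,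
      tardiness (fun j => (l.map (fun x => (p x, d x, w x)))[j].1)
        (fun j => (l.map (fun x => (p x, d x, w x)))[j].2.1)
        (fun j => (l.map (fun x => (p x, d x, w x)))[j].2.2) S =
      ∑ j : Fin l.length, (w l[j] : ℝ) * max 0 (S (Fin.cast hlen.symm j) + p l[j] - d l[j]) := by
    intro S
    unfold tardiness
    refine Fintype.sum_equiv (finCongr hlen) _ _ fun j => ?_
    simp
  unfold Tardy
  constructor
  · rintro ⟨_, S, hS, hk⟩
    simp only at S hS hk
    rw [trans] at hk
    refine ⟨fun x => if h : x ∈ l then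
      ⌊S (Fin.cast hlen.symm ⟨l.idxOf x, List.idxOf_lt_length_iff.2 h⟩)⌋₊ else 0, ?_, ?_⟩
    · intro x hx y hy hxy
      simp only [dif_pos hx, dif_pos hy]
      set j : Fin l.length := ⟨l.idxOf x, List.idxOf_lt_length_iff.2 hx⟩ with hj
      set k : Fin l.length := ⟨l.idxOf y, List.idxOf_lt_length_iff.2 hy⟩ with hk
      have hjx : l[j] = x := List.getElem_idxOf _
      have hky : l[k] = y := List.getElem_idxOf _
      have hjk : j ≠ k := by
        intro h
        apply hxy
        exact hjx.symm.trans ((congrArg (fun i : Fin l.length => l[i]) h).trans hky)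
      have h0 := hS.nonneg (Fin.cast hlen.symm j)
      have h0' := hS.nonneg (Fin.cast hlen.symm k)
      have h1 := hS.disjoint (Fin.cast hlen.symm j) (Fin.cast hlen.symm k)
        (fun h => hjk (by simpa using h))
      have e1 : (l.map (fun x => (p x, d x, w x)))[Fin.cast hlen.symm j].1 = p x :=
        (show _ = p l[j] by simp).trans (congrArg p hjx)
      have e2 : (l.map (fun x => (p x, d x, w x)))[Fin.cast hlen.symm k].1 = p y :=
        (show _ = p l[k] by simp).trans (congrArg p hky)
      rw [e1, e2] at h1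
      rcases h1 with h1 | h1
      · left
        rw [← Nat.floor_add_natCast h0]
        exact Nat.floor_le_floor h1
      · right
        rw [← Nat.floor_add_natCast h0']
        exact Nat.floor_le_floor h1
    · have h2 : (((l.map (fun x => w x * ((if h : x ∈ l then
          ⌊S (Fin.cast hlen.symm ⟨l.idxOf x, List.idxOf_lt_length_iff.2 h⟩)⌋₊ else 0) +
            p x - d x))).sum : ℕ) : ℝ) ≤ k := by
        rw [key (fun x => if h : x ∈ l then
          ⌊S (Fin.cast hlen.symm ⟨l.idxOf x, List.idxOf_lt_length_iff.2 h⟩)⌋₊ else 0)]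
        refine le_trans (Finset.sum_le_sum fun j _ => ?_) hk
        refine mul_le_mul_of_nonneg_left ?_ (Nat.cast_nonneg _)
        have hj : l[j] ∈ l := List.getElem_mem j.2
        have e : (⟨l.idxOf l[j], List.idxOf_lt_length_iff.2 hj⟩ : Fin l.length) = j := by
          apply Fin.ext
          exact List.Nodup.idxOf_getElem hl j.1 j.2
        simp only [dif_pos hj]
        rw [e]
        have h0 := hS.nonneg (Fin.cast hlen.symm j)
        have h3 := Nat.floor_le h0
        rcases le_total (⌊S (Fin.cast hlen.symm j)⌋₊ + p l[j]) (d l[j]) with h4 | h4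
        · rw [Nat.sub_eq_zero_of_le h4, Nat.cast_zero]
          exact le_max_left _ _
        · rw [Nat.cast_sub h4, Nat.cast_add]
          refine le_trans ?_ (le_max_right _ _)
          linarith
      rw [← Int.cast_natCast (R := ℝ), Int.cast_le] at h2
      exact h2
  · rintro ⟨t, ht, hk⟩
    refine ⟨?_, fun j => (t l[Fin.cast hlen j] : ℝ), ⟨fun j => Nat.cast_nonneg _,
      fun i j hij => ?_⟩, ?_⟩
    · intro j hj
      rw [List.mem_map] at hj
      obtain ⟨x, _, rfl⟩ := hj
      exact hp x
    · have h3 : l[Fin.cast hlen i] ≠ l[Fin.cast hlen j] := fun h =>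
        hij (by
          have := (List.Nodup.getElem_inj_iff hl).1 h
          exact Fin.ext this)
      have := ht _ (List.getElem_mem (Fin.cast hlen i).2) _ (List.getElem_mem (Fin.cast hlen j).2) h3
      have e1 : (l.map (fun x => (p x, d x, w x)))[i].1 = p l[Fin.cast hlen i] := by simp
      have e2 : (l.map (fun x => (p x, d x, w x)))[j].1 = p l[Fin.cast hlen j] := by simp
      simp only
      rw [e1, e2]
      rcases this with h | h
      · left; exact_mod_cast h
      · right; exact_mod_cast h
    · simp only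
      rw [trans]
      have h2 : (((l.map (fun x => w x * (t x + p x - d x))).sum : ℕ) : ℝ) ≤ k := by
        rw [← Int.cast_natCast (R := ℝ), Int.cast_le]
        exact hk
      rw [key] at h2
      refine le_trans (Finset.sum_le_sum fun j _ => ?_) h2
      refine mul_le_mul_of_nonneg_left ?_ (Nat.cast_nonneg _)
      simp only [Fin.cast_cast, Fin.cast_eq_self]
      apply max_le (Nat.cast_nonneg _)
      rw [sub_le_iff_le_add]
      have : t l[j] + p l[j] ≤ t l[j] + p l[j] - d l[j] + d l[j] := by omega
      exact_mod_cast this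

/-- The instance. -/
noncomputable def inst (φ : List Cl) : List (ℕ × ℕ × ℕ) × ℤ :=
  ((keysW (mm φ) φ.length (cg φ)).map (fun x => (len (mm φ) x, due' (mm φ) φ.length x,
    wt (mm φ) φ.length (cg φ) x)), (AA (mm φ) φ.length (cg φ) : ℤ) - (BB (mm φ) φ.length (cg φ) : ℤ))

/-- **Correctness of the reduction.** -/
theorem inst_correct (φ : List Cl) : SAT3 φ ↔ Tardy (inst φ) := by
  unfold inst
  rw [tardy_iff _ keysW_nodup _ _ _ (len_pos' _), ← satG_iff,
    ← cheap_iff (by unfold mm; omega)]
  unfold Cheap
  refine exists_congr fun t => and_congr Iff.rfl ?_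
  omega

theorem pmax_inst (φ : List Cl) : pmax (inst φ) ≤ 13 := by
  unfold pmax inst
  simp only
  induction keysW (mm φ) φ.length (cg φ) with
  | nil => simp
  | cons x l ih =>
    simp only [List.map_cons, List.foldr_cons]
    apply max_le _ ih
    unfold len
    split_ifs <;> omega

theorem inst_poly : Poly inst := by
  have h3 : Poly (fun x : List Cl × Ky => x.2) := Poly.snd Poly.id
  have h1 : Poly (fun x : List Cl × Ky => x.1) := Poly.fst Poly.id
  unfold inst
  exact Poly.pair (NPC.Poly.map (F := fun φ (x : Ky) => (len (mm φ) x, due' (mm φ) φ.length x,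
    wt (mm φ) φ.length (cg φ) x)) (keysW_p Poly.id) (Poly.pair (lenf_poly (m_p h1) h3)
    (Poly.pair (due_p h1 h3) (wt_p h1 h3)))) (Poly.isub (Poly.natCast (AA_p Poly.id))
    (Poly.natCast (BB_p Poly.id)))

/-- The problem with processing times at most `c`. -/
def TardyLe (c : ℕ) (I : List (ℕ × ℕ × ℕ) × ℤ) : Prop := pmax I ≤ c ∧ Tardy I

theorem hardI_tardy {c : ℕ} (hc : 13 ≤ c) : HardI (TardyLe c) :=
  hardI_SAT3.trans inst_poly fun φ =>
    ⟨fun h => ⟨(pmax_inst φ).trans hc, (inst_correct φ).1 h⟩, fun h => (inst_correct φ).2 h.2⟩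

open Pool.Agent.H633R2 in
/-- A fixed-parameter algorithm for the parameter `pmax` collapses `NP` to `P`. -/
theorem fpt_collapse (h : IsFpt pmax Tardy) : ∀ L : Set (List Bool), InNP L → InP L := by
  obtain ⟨d, hd, hd'⟩ := h
  have h1 : FptTime (fun _ : List Cl => 0) (fun φ => d (inst φ)) :=
    FptTime.comp (κ := fun _ : List Cl => 0) hd (FptTime.of_poly inst_poly)
      (Computable.const 13) (fun φ => pmax_inst φ)
  rw [fptTime_iff] at h1
  obtain ⟨c, h, p, _, hc⟩ := h1
  have h2 : Poly (fun φ : List Cl => d (inst φ)) := by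
    refine ⟨c, Polynomial.C (h 0) * p, fun a => ?_⟩
    rw [Polynomial.eval_mul, Polynomial.eval_C]
    exact hc a
  exact HardI.collapse hardI_SAT3 h2 fun φ => (inst_correct φ).trans (hd' _).symm

end Pool.Agent.H257R2.WT
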