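import Pool.Agent.H257R2.WT.Defs

/-!
# Total weighted tardiness: correctness
-/

namespace Pool.Agent.H257R2.WT

open Pool.Agent.H741R2.LJ Finset

section

variable {m s : ℕ} {cg : ℕ → Bool}

theorem len0' (g : ℕ) : len m (0, g) = if Ev m g then 10 else 13 := len0 g

theorem om0 (g : ℕ) : om m s (0, g) = W1 m s * cnt (2 * m * s) (s1 m) g := by simp [om]

theorem om1 (g : ℕ) : om m s (1, g) = W2 m s * cnt (2 * m * s) (s2 m s) g := by simp [om]

theorem om2 (g : ℕ) : om m s (2, g) = 1 := by simp [om]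

theorem om3 (g : ℕ) : om m s (3, g) = 0 := by simp [om]

theorem len_pos' (m : ℕ) (x : Ky) : 0 < len m x := by
  unfold len
  split_ifs <;> omega

theorem len4' (c : ℕ) : len m (4, c) = 1 := len4 c

theorem sum_pos : ∑ x ∈ (keysZ m s cg).toFinset, x.2 =
    ∑ c ∈ range (Hz m s), if rg m s cg c = true then c else 0 := by
  rw [sum_keysZ (fun x => x.2), sum_filter]

theorem hF' : ∑ t ∈ range (Hz m s), t = F0 m s cg + ∑ x ∈ (keysZ m s cg).toFinset, x.2 := by
  rw [sum_pos]
  unfold F0
  rw [lsum_eq, ← sum_add_distrib]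
  refine sum_congr rfl fun c _ => ?_
  split_ifs <;> simp

theorem card_free : ((List.range (Hz m s)).filter (fun c => !rg m s cg c)).length =
    ((range (Hz m s)).filter (fun c => ¬ rg m s cg c = true)).card := by
  rw [← List.toFinset_card_of_nodup (List.nodup_range.filter _), List.toFinset_filter,
    List.toFinset_range]
  congr 1
  ext x
  simp

theorem sum_len_Z : ∑ x ∈ (keysZ m s cg).toFinset, len m x =
    ((range (Hz m s)).filter (fun c => rg m s cg c = true)).card := by
  rw [sum_keysZ, sum_congr rfl (fun c _ => len4' c), sum_const, smul_eq_mul, mul_one]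

theorem card_split : ((range (Hz m s)).filter (fun c => rg m s cg c = true)).card +
    ((range (Hz m s)).filter (fun c => ¬ rg m s cg c = true)).card = Hz m s := by
  rw [card_filter_add_card_filter_not, card_range]

theorem sum_len_X : ∑ x ∈ (keysX m s cg).toFinset, len m x =
    lsum (2 * m * s) (fun g => len m (0, g)) + lsum (2 * m * s) (fun g => len m (1, g)) + 2 * s +
      nf m s cg := by
  rw [sum_keysX, lsum_eq, lsum_eq, sum_congr rfl (fun c _ => len2 c),
    sum_congr (s₁ := range (nf m s cg)) rfl (fun c _ => len3 c), sum_const, sum_const, card_range,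
    card_range]
  simp only [smul_eq_mul, mul_one]
  ring

theorem hH' : Hz m s ≤ ∑ x ∈ (keysX m s cg).toFinset ∪ (keysZ m s cg).toFinset, len m x := by
  rw [sum_union disjXZ, sum_len_Z, sum_len_X]
  have h1 := card_split (m := m) (s := s) (cg := cg)
  have h2 := card_free (m := m) (s := s) (cg := cg)
  unfold nf
  omega

theorem sum_tri : ∑ x ∈ (keysX m s cg).toFinset, tri (len m x) = QQ m s cg := by
  rw [sum_keysX (fun x => tri (len m x))]
  unfold QQ
  rw [lsum_eq, lsum_eq, lsum_eq]
  have h2 : ∀ g, tri (len m (2, g)) = 3 := fun g => by rw [len2]; rfl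
  have h3 : ∀ g, tri (len m (3, g)) = 1 := fun g => by rw [len3]; rfl
  simp only [h2, h3, sum_const, card_range, smul_eq_mul, mul_one]

theorem BB_eq : ∑ x ∈ (keysX m s cg).toFinset, (len m x * WW m s + om m s x) * due' m s x =
    BB m s cg := by
  rw [sum_keysX (fun x => (len m x * WW m s + om m s x) * due' m s x)]
  unfold BB
  rw [lsum_eq, lsum_eq, lsum_eq]
  have h3 : ∀ g, due' m s (3, g) = 0 := fun g => by simp [due']
  simp only [h3, mul_zero, sum_const_zero, add_zero]
  simp [wt]

theorem sum_om (F : Ky → ℕ) : ∑ x ∈ (keysX m s cg).toFinset, om m s x * F x =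
    W1 m s * ∑ g ∈ range (2 * m * s), cnt (2 * m * s) (s1 m) g * F (0, g) +
    W2 m s * ∑ g ∈ range (2 * m * s), cnt (2 * m * s) (s2 m s) g * F (1, g) +
    ∑ g ∈ range s, F (2, g) := by
  rw [sum_keysX (fun x => om m s x * F x)]
  simp only [om0, om1, om2, om3, one_mul, zero_mul, sum_const_zero, add_zero, mul_assoc, mul_sum]

/-- The cost, as a sum over the two kinds of jobs. -/
theorem cost_eq (S : Ky → ℕ) :
    ((keysW m s cg).map (fun x => wt m s cg x * (S x + len m x - due' m s x))).sum =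
    ∑ x ∈ (keysX m s cg).toFinset, (len m x * WW m s + om m s x) * (S x + len m x - due' m s x) +
    ∑ x ∈ (keysZ m s cg).toFinset, (AA m s cg + 1) * (S x + 1 - (x.2 + 1)) := by
  rw [← List.sum_toFinset _ keysW_nodup, keysW_toFinset, sum_union disjXZ]
  congr 1
  · refine sum_congr rfl fun x hx => ?_
    rw [List.mem_toFinset, mem_keysX] at hx
    unfold wt
    rw [if_neg (by omega)]
  · refine sum_congr rfl fun x hx => ?_
    rw [List.mem_toFinset, mem_keysZ] at hx
    obtain ⟨a, c⟩ := x
    obtain ⟨h1, _, _⟩ := hx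
    simp only at h1
    subst h1
    rw [len4']
    simp [wt, due']

theorem mem_XZ {x : Ky} : x ∈ (keysX m s cg).toFinset ∪ (keysZ m s cg).toFinset ↔
    x ∈ keysW m s cg := by
  rw [← keysW_toFinset, List.mem_toFinset]

theorem sat_of_cheap (hm : 0 < m) (hs : 0 < s) (h : Cheap m s cg) : SatG m s cg := by
  classical
  obtain ⟨S, hd, hcost⟩ := h
  rw [cost_eq] at hcost
  have hL0 : 0 < Lm m s := by have := Lm_ge m s; omega
  have hHz0 : 0 < Hz m s := Nat.mul_pos hL0 hs
  obtain ⟨hZ, hX, hO, hle⟩ := weights (X := (keysX m s cg).toFinset) (Z := (keysZ m s cg).toFinset)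
    (p := len m) (ω := om m s) (d := due' m s) (S := S) (pos := fun x => x.2) (W := WW m s)
    (Om := Om m s) (F0 := F0 m s cg) (H := Hz m s) (Big := AA m s cg + 1) disjXZ
    (fun x _ => len_pos' m x)
    (fun x hx => by
      rw [List.mem_toFinset, mem_keysZ] at hx
      obtain ⟨a, c⟩ := x
      obtain ⟨h1, _, _⟩ := hx
      simp only at h1
      subst h1
      exact len4' c)
    (by unfold WW; omega) hHz0
    (fun x hx y hy => hd x (mem_XZ.1 hx) y (mem_XZ.1 hy)) hH' hF'
    (by rw [sum_tri]; unfold AA; omega)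
    (by rw [BB_eq, sum_tri]; unfold AA at hcost ⊢; exact hcost)
  have hkX : ∀ x, x ∈ keysX m s cg → x ∈ keysW m s cg := fun x hx => List.mem_append_left _ hx
  have hkZ : ∀ x, x ∈ keysZ m s cg → x ∈ keysW m s cg := fun x hx => List.mem_append_right _ hx
  have k0 : ∀ g < 2 * m * s, (0, g) ∈ keysX m s cg := fun g hg => mem_keysX.2 (Or.inl ⟨rfl, hg⟩)
  have k1 : ∀ g < 2 * m * s, (1, g) ∈ keysX m s cg := fun g hg =>
    mem_keysX.2 (Or.inr (Or.inl ⟨rfl, hg⟩))
  have k2 : ∀ g < s, (2, g) ∈ keysX m s cg := fun g hg =>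
    mem_keysX.2 (Or.inr (Or.inr (Or.inl ⟨rfl, hg⟩)))
  -- the flexible jobs use the free cells
  have hfree : ∀ x ∈ keysX m s cg, ∀ c, S x ≤ c → c < S x + len m x → rg m s cg c = false := by
    intro x hx c h1 h2
    by_contra hc
    rw [Bool.not_eq_false] at hc
    have hcH : c < Hz m s := by
      have := hle x (mem_XZ.2 (hkX x hx))
      omega
    have hz : ((4, c) : Ky) ∈ keysZ m s cg := mem_keysZ.2 ⟨rfl, hcH, hc⟩
    have h4 := hd x (hkX x hx) (4, c) (hkZ _ hz) (fun e => keys_disj x hx (e ▸ hz))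
    have h5 := hZ (4, c) (List.mem_toFinset.2 hz)
    simp only at h5
    rw [h5, len4'] at h4
    omega
  have hgap : ∀ x ∈ keysX m s cg, Ps m s (gi m s (S x)) ≤ S x ∧
      S x + len m x ≤ Ps m s (gi m s (S x)) + 19 ∧
      (cg (gi m s (S x)) = false → S x + len m x ≤ Ps m s (gi m s (S x)) + 18) ∧
      gi m s (S x) < 2 * m * s := by
    intro x hx
    have h1 := len_pos' m x
    have h2 := fit (cg := cg) hm (t := S x) (l := len m x) h1 (hfree x hx)
    have h3 := rg_false.1 (hfree x hx (S x) le_rfl (by omega))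
    have h4 := cell (s := s) hm h3.1
    have h5 := hle x (mem_XZ.2 (hkX x hx))
    exact ⟨h2.1, h2.2.1, h2.2.2, h4.2.1 (by omega)⟩
  -- not before the window
  have hrel : ∀ x ∈ keysX m s cg, ∀ g, Ps m s g ≤ S x → g ≤ gi m s (S x) := by
    intro x hx g hg
    by_contra hlt
    have h1 := Ps_lt (s := s) hm (show gi m s (S x) < g by omega)
    have h2 := hgap x hx
    have h3 := len_pos' m x
    omega
  rw [sum_om (fun x => S x + len m x)] at hO
  -- class 1
  have hl0 : ∀ g, 10 ≤ len m (0, g) := fun g => by rw [len0]; split_ifs <;> omega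
  have hl1 : ∀ g, 5 ≤ len m (1, g) := fun g => by rw [len1]; split_ifs <;> omega
  set γ : ℕ → ℕ := fun g => gi m s (S (0, g)) with hγ
  set γ' : ℕ → ℕ := fun g => gi m s (S (1, g)) with hγ'
  have hlt0 : ∀ g < 2 * m * s, γ g < 2 * m * s := fun g hg => (hgap _ (k0 g hg)).2.2.2
  have hlt1 : ∀ g < 2 * m * s, γ' g < 2 * m * s := fun g hg => (hgap _ (k1 g hg)).2.2.2
  have hinj0 : ∀ g < 2 * m * s, ∀ h < 2 * m * s, γ g = γ h → g = h := by
    intro g hg h hh he
    by_contra hne
    have h1 := hd _ (hkX _ (k0 g hg)) _ (hkX _ (k0 h hh)) (ne_key' hne)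
    have h2 := hgap _ (k0 g hg)
    have h3 := hgap _ (k0 h hh)
    have h4 := hl0 g
    have h5 := hl0 h
    simp only [hγ] at he
    rw [he] at h2
    omega
  have hrel0 : ∀ g < 2 * m * s, min g (s1 m g) ≤ γ g := by
    intro g hg
    apply hrel _ (k0 g hg)
    have := hX (0, g) (List.mem_toFinset.2 (k0 g hg))
    simp only [due', if_true] at this
    omega
  have hrel1 : ∀ g < 2 * m * s, min g (s2 m s g) ≤ γ' g := by
    intro g hg
    apply hrel _ (k1 g hg)
    have := hX (1, g) (List.mem_toFinset.2 (k1 g hg))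
    simp only [due', if_true] at this
    norm_num at this
    omega
  have hlev0 := level (f := Ps m s) (σ := s1 m) (γ := γ) (Ps_mono hm) (fun g hg => s1_lt hm hg)
    (fun g _ h h1 h2 => s1_nested hm h1 h2) hinj0 hrel0
  have hlev1 : (∀ g < 2 * m * s, ∀ h < 2 * m * s, γ' g = γ' h → g = h) → _ := fun hinj1 =>
    level (f := Ps m s) (σ := s2 m s) (γ := γ') (Ps_mono hm) (fun g hg => s2_lt hm hg)
      (fun g hg h h1 h2 => s2_nested hm hg h1 h2) hinj1 hrel1
  set G := 2 * m * s with hG
  -- the first level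
  have e0 : ∑ g ∈ range G, cnt G (s1 m) g * (S (0, g) + len m (0, g)) =
      ∑ g ∈ range G, cnt G (s1 m) g * Ps m s (γ g) +
      ∑ g ∈ range G, cnt G (s1 m) g * len m (0, g) +
      ∑ g ∈ range G, cnt G (s1 m) g * (S (0, g) - Ps m s (γ g)) := by
    rw [← sum_add_distrib, ← sum_add_distrib]
    refine sum_congr rfl fun g hg => ?_
    have := (hgap _ (k0 g (mem_range.1 hg))).1
    rw [← Nat.mul_add, ← Nat.mul_add]
    congr 1
    simp only [hγ]
    omega
  have eA : OA m s = ∑ g ∈ range G, cnt G (s1 m) g * Ps m s g +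
      ∑ g ∈ range G, cnt G (s1 m) g * len m (0, g) := by
    unfold OA
    rw [lsum_eq, ← sum_add_distrib]
    refine sum_congr rfl fun g _ => ?_
    rw [Nat.mul_add]
  have hA : ∑ g ∈ range G, cnt G (s1 m) g * (S (0, g) + len m (0, g)) ≤ OA m s := by
    by_contra hcon
    have h1 : W1 m s * (OA m s + 1) ≤
      W1 m s * ∑ g ∈ range G, cnt G (s1 m) g * (S (0, g) + len m (0, g)) :=
      Nat.mul_le_mul_left _ (by omega)
    have h2 : W1 m s * (OA m s + 1) = W1 m s * OA m s + W1 m s := by ring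
    have h3 : W1 m s = W2 m s * OB m s + OC m s + 1 := rfl
    unfold Om at hO
    omega
  have hA1 := hlev0.2 (by omega)
  have hA2 : ∑ g ∈ range G, cnt G (s1 m) g * (S (0, g) - Ps m s (γ g)) = 0 := by
    have := hlev0.1
    omega
  have hA3 : ∀ g < G, S (0, g) = Ps m s (γ g) := by
    intro g hg
    rw [sum_eq_zero_iff] at hA2
    have h1 := hA2 g (mem_range.2 hg)
    have h2 := cnt_pos (σ := s1 m) hg
    have h3 := (hgap _ (k0 g hg)).1
    rcases Nat.mul_eq_zero.1 h1 with h | h
    · omega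
    · simp only [hγ] at h ⊢
      omega
  have hsurj0 := surj_of_inj hlt0 hinj0
  have hwin0 : ∀ g < G, min g (s1 m g) ≤ γ g ∧ γ g ≤ max g (s1 m g) := fun g hg =>
    ⟨hrel0 g hg, hA1 g hg⟩
  -- class 2
  have hinj1 : ∀ g < G, ∀ h < G, γ' g = γ' h → g = h := by
    intro g hg h hh he
    by_contra hne
    obtain ⟨f, hf, hfe⟩ := hsurj0 (γ' g) (hlt1 g hg)
    have h1 := hd _ (hkX _ (k1 g hg)) _ (hkX _ (k1 h hh)) (ne_key' hne)
    have h2 := hd _ (hkX _ (k0 f hf)) _ (hkX _ (k1 g hg)) (ne_key (by norm_num))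
    have h3 := hd _ (hkX _ (k0 f hf)) _ (hkX _ (k1 h hh)) (ne_key (by norm_num))
    have h4 := hgap _ (k1 g hg)
    have h5 := hgap _ (k1 h hh)
    have h6 := hgap _ (k0 f hf)
    have h7 := hl0 f
    have h8 := hl1 g
    have h9 := hl1 h
    simp only [hγ, hγ'] at he hfe
    rw [he] at h4 hfe
    rw [hfe] at h6
    omega
  have hsurj1 := surj_of_inj hlt1 hinj1
  have hbits : ∀ h < G, (Bit G γ (Ev m) h ↔ Bit G γ' (Ev m) h) := by
    intro h hh
    refine bit_eq hlt0 hinj0 hlt1 hinj1 ?_ hh
    rintro a ha ⟨g, hg, hga, hge⟩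
    obtain ⟨f, hf, hfa⟩ := hsurj0 a ha
    refine ⟨f, hf, hfa, ?_⟩
    by_contra hne
    have h1 := hd _ (hkX _ (k0 f hf)) _ (hkX _ (k1 g hg)) (ne_key (by norm_num))
    have h2 : len m (0, f) = 13 := by rw [len0, if_neg hne]
    have h3 : len m (1, g) = 7 := by rw [len1, if_pos hge]
    have h4 := hgap _ (k0 f hf)
    have h5 := hgap _ (k1 g hg)
    simp only [hγ, hγ'] at hga hfa
    rw [hga] at h5
    rw [hfa] at h4
    omega
  have hoff : ∀ g < G, Ps m s (γ' g) + (if Ev m g then 17 else 18) ≤ S (1, g) + len m (1, g) := by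
    intro g hg
    obtain ⟨f, hf, hfe⟩ := hsurj0 (γ' g) (hlt1 g hg)
    have h1 := hd _ (hkX _ (k0 f hf)) _ (hkX _ (k1 g hg)) (ne_key (by norm_num))
    have h2 := hA3 f hf
    have h3 := hgap _ (k1 g hg)
    have h4 := hl1 g
    have h5 := hl0 f
    have h6 := hgap _ (k0 f hf)
    simp only [hγ, hγ'] at hfe h2 ⊢
    rw [hfe] at h2 h6
    by_cases hE : Ev m g
    · rw [if_pos hE]
      rw [len1, if_pos hE] at h1 h3 ⊢
      omega
    · rw [if_neg hE]
      have h7 : ¬ Ev m f := by
        intro hEf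
        have h8 : Bit G γ (Ev m) (γ' g) := ⟨f, hf, hfe, hEf⟩
        rw [hbits _ (hlt1 g hg)] at h8
        obtain ⟨g', hg', h9, h10⟩ := h8
        rw [hinj1 g' hg' g hg h9] at h10
        exact hE h10
      rw [len0, if_neg h7] at h1 h6
      rw [len1, if_neg hE] at h1 h3 ⊢
      omega
  have e1 : ∑ g ∈ range G, cnt G (s2 m s) g * (S (1, g) + len m (1, g)) =
      ∑ g ∈ range G, cnt G (s2 m s) g * Ps m s (γ' g) +
      ∑ g ∈ range G, cnt G (s2 m s) g * (if Ev m g then 17 else 18) +
      ∑ g ∈ range G, cnt G (s2 m s) g * (S (1, g) + len m (1, g) -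
        (Ps m s (γ' g) + (if Ev m g then 17 else 18))) := by
    rw [← sum_add_distrib, ← sum_add_distrib]
    refine sum_congr rfl fun g hg => ?_
    have := hoff g (mem_range.1 hg)
    rw [← Nat.mul_add, ← Nat.mul_add]
    congr 1
    omega
  have eB : OB m s = ∑ g ∈ range G, cnt G (s2 m s) g * Ps m s g +
      ∑ g ∈ range G, cnt G (s2 m s) g * (if Ev m g then 17 else 18) := by
    unfold OB
    rw [lsum_eq, ← sum_add_distrib]
    refine sum_congr rfl fun g _ => ?_
    rw [Nat.mul_add]
  have hlev1' := hlev1 hinj1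
  have hAeq : ∑ g ∈ range G, cnt G (s1 m) g * (S (0, g) + len m (0, g)) = OA m s := by
    have := hlev0.1
    omega
  rw [hAeq] at hO
  have hB : ∑ g ∈ range G, cnt G (s2 m s) g * (S (1, g) + len m (1, g)) ≤ OB m s := by
    by_contra hcon
    have h1 : W2 m s * (OB m s + 1) ≤
      W2 m s * ∑ g ∈ range G, cnt G (s2 m s) g * (S (1, g) + len m (1, g)) :=
      Nat.mul_le_mul_left _ (by omega)
    have h2 : W2 m s * (OB m s + 1) = W2 m s * OB m s + W2 m s := by ring
    have h3 : W2 m s = OC m s + 1 := rfl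
    unfold Om at hO
    omega
  have hB1 := hlev1'.2 (by omega)
  have hBeq : ∑ g ∈ range G, cnt G (s2 m s) g * (S (1, g) + len m (1, g)) = OB m s := by
    have := hlev1'.1
    omega
  have hwin1 : ∀ g < G, min g (s2 m s g) ≤ γ' g ∧ γ' g ≤ max g (s2 m s g) := fun g hg =>
    ⟨hrel1 g hg, hB1 g hg⟩
  rw [hBeq] at hO
  have hC : ∑ r ∈ range s, (S (2, r) + len m (2, r)) ≤ OC m s := by
    unfold Om at hO
    omega
  -- the clause jobs
  have hcl : ∀ r < s, Lm m s * r ≤ S (2, r) ∧ S (2, r) < Lm m s * r + Lm m s := by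
    intro r hr
    have hrel2 : ∀ r < s, Lm m s * r + 2 ≤ S (2, r) + len m (2, r) := by
      intro r hr
      have := hX (2, r) (List.mem_toFinset.2 (k2 r hr))
      simp only [due'] at this
      norm_num at this
      exact this
    have h0 := hrel2 r hr
    rw [len2] at h0
    refine ⟨by omega, ?_⟩
    by_contra hcon
    have h1 : ∑ r ∈ range s, (Lm m s * r + 2) + Lm m s ≤ ∑ r ∈ range s, (S (2, r) + len m (2, r)) := by
      rw [← add_sum_erase _ _ (mem_range.2 hr),
        ← add_sum_erase _ (fun r => S (2, r) + len m (2, r)) (mem_range.2 hr)]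
      have h2 : ∑ r ∈ (range s).erase r, (Lm m s * r + 2) ≤
          ∑ r ∈ (range s).erase r, (S (2, r) + len m (2, r)) :=
        sum_le_sum fun i hi => hrel2 i (mem_range.1 (mem_of_mem_erase hi))
      rw [len2]
      omega
    have h2 : OC m s = ∑ r ∈ range s, Lm m s * r + 40 * m * s := by
      unfold OC
      rw [lsum_eq, sum_add_distrib, sum_const, card_range, smul_eq_mul]
      ring
    have h3 : ∑ r ∈ range s, (Lm m s * r + 2) = ∑ r ∈ range s, Lm m s * r + s * 2 := by
      rw [sum_add_distrib, sum_const, card_range, smul_eq_mul]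
    have h4 := Lm_eq m s
    omega
  have hclb : ∀ r < s, 2 * m * r ≤ gi m s (S (2, r)) ∧ gi m s (S (2, r)) < 2 * m * r + 2 * m := by
    intro r hr
    have h1 := hcl r hr
    have h2 := rg_false.1 (hfree _ (k2 r hr) (S (2, r)) le_rfl (by rw [len2]; omega))
    have h3 : S (2, r) / Lm m s = r := by
      rw [Nat.div_eq_iff hL0]
      constructor
      · rw [Nat.mul_comm]; exact h1.1
      · rw [Nat.mul_comm r]
        omega
    unfold gi
    rw [h3]
    omega
  -- the schedule for the deadlines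
  apply sat_of_feas hm
  set t : Ky → ℕ := fun x => if x.1 ≤ 2 then 20 * gi m s (S x) + (S x - Ps m s (gi m s (S x))) else
    if x.1 = 3 then 20 * x.2 + 18 else 20 * x.2 + 19 with ht
  have t012 : ∀ x : Ky, x.1 ≤ 2 → t x = 20 * gi m s (S x) + (S x - Ps m s (gi m s (S x))) := by
    intro x hx
    simp only [ht]
    rw [if_pos hx]
  have t3 : ∀ g, t (3, g) = 20 * g + 18 := fun g => by simp [ht]
  have t4 : ∀ g, t (4, g) = 20 * g + 19 := fun g => by simp [ht]
  have hkey : ∀ x, Key m s cg x → x.1 ≤ 2 → x ∈ keysX m s cg := by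
    intro x hx hx2
    rw [mem_keysX]
    unfold Key at hx
    omega
  refine ⟨t, ?_, ?_⟩
  · rintro ⟨a, g⟩ hx
    rcases hx with ⟨h1, h2⟩ | ⟨h1, h2⟩ | ⟨h1, h2⟩ | ⟨h1, h2, h3⟩ | ⟨h1, h2⟩ <;> simp only at h1 h2 <;>
      subst h1
    · rw [t012 _ (by norm_num)]
      have e1 : rel m s (0, g) = 20 * min g (s1 m g) := by simp [rel]
      have e2 : due m s (0, g) = 20 * max g (s1 m g) + 20 := by simp [due]
      rw [e1, e2]
      have h3 := hwin0 g h2
      have h4 := hgap _ (k0 g h2)
      simp only [hγ] at h3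
      omega
    · rw [t012 _ (by norm_num)]
      have e1 : rel m s (1, g) = 20 * min g (s2 m s g) := by simp [rel]
      have e2 : due m s (1, g) = 20 * max g (s2 m s g) + 20 := by simp [due]
      rw [e1, e2]
      have h3 := hwin1 g h2
      have h4 := hgap _ (k1 g h2)
      simp only [hγ'] at h3
      omega
    · rw [t012 _ (by norm_num)]
      have e1 : rel m s (2, g) = 20 * (2 * m * g) := by simp [rel]
      have e2 : due m s (2, g) = 20 * (2 * m * g + 2 * m) := by simp [due]
      rw [e1, e2]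
      have h3 := hclb g h2
      have h4 := hgap _ (k2 g h2)
      omega
    · rw [t3, len3]
      simp [rel, due]
    · rw [t4, len4]
      simp [rel, due]
  · have main : ∀ x y, Key m s cg x → Key m s cg y → x ≠ y → x.1 ≤ y.1 →
        t x + len m x ≤ t y ∨ t y + len m y ≤ t x := by
      intro x y hx hy hne hab
      by_cases hy2 : y.1 ≤ 2
      · -- both flexible
        have hx2 : x.1 ≤ 2 := hab.trans hy2
        have hx' := hkey x hx hx2
        have hy' := hkey y hy hy2
        rw [t012 x hx2, t012 y hy2]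
        have h1 := hgap x hx'
        have h2 := hgap y hy'
        have h3 := hd x (hkX x hx') y (hkX y hy') hne
        by_cases he : gi m s (S x) = gi m s (S y)
        · rw [he] at h1 ⊢
          omega
        · omega
      · by_cases hx2 : x.1 ≤ 2
        · have hx' := hkey x hx hx2
          have h1 := hgap x hx'
          rw [t012 x hx2]
          obtain ⟨b, h⟩ := y
          rcases hy with ⟨h4, h5⟩ | ⟨h4, h5⟩ | ⟨h4, h5⟩ | ⟨h4, h5, h6⟩ | ⟨h4, h5⟩ <;>
            simp only at h4 h5 hy2 <;> subst h4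
          · omega
          · omega
          · omega
          · rw [t3, len3]
            simp only at h6
            by_cases he : gi m s (S x) = h
            · have h7 := h1.2.2.1 (by rw [he]; exact h6)
              omega
            · omega
          · rw [t4, len4]
            omega
        · obtain ⟨a, g⟩ := x
          obtain ⟨b, h⟩ := y
          rcases hx with ⟨h1, h2⟩ | ⟨h1, h2⟩ | ⟨h1, h2⟩ | ⟨h1, h2, h3⟩ | ⟨h1, h2⟩ <;>
            simp only at h1 h2 hx2 <;> subst h1 <;>
            rcases hy with ⟨h4, h5⟩ | ⟨h4, h5⟩ | ⟨h4, h5⟩ | ⟨h4, h5, h6⟩ | ⟨h4, h5⟩ <;>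
            simp only at h4 h5 hy2 <;> subst h4 <;> simp only at hab <;>
            first | (exfalso; omega) | skip
          · rw [t3, t3, len3, len3]
            have h7 : g ≠ h := fun e => hne (by rw [e])
            omega
          · rw [t3, t4, len3, len4]
            omega
          · rw [t4, t4, len4, len4]
            have h7 : g ≠ h := fun e => hne (by rw [e])
            omega
    intro x y hx hy hne
    rcases le_total x.1 y.1 with h | h
    · exact main x y hx hy hne h
    · exact (main y x hy hx (Ne.symm hne) h).symm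

end

end Pool.Agent.H257R2.WT
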